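import Pool.Agent.W2helper9.OP.Stm

/-!
# Project OP: elementary lemmas
-/

set_option autoImplicit false
set_option linter.unusedSectionVars false

open MvPolynomial IsDedekindDomain NumberField Filter

namespace Pool.Agent.W2helper9.OP

open Pool.Agent.Helper819.Dyn (Tuple IsEnd)
open Pool.Agent.K3h30.RS (PosProportion)

section mp

variable {k E : Type} [Field k] [Field E] [Algebra k E] {N d : ℕ}

theorem aeval_smul' {p : MvPolynomial (Fin (N + 1)) k} (hp : p.IsHomogeneous d) (c : E)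
    (x : Fin (N + 1) → E) : aeval (c • x) p = c ^ d * aeval x p := by
  rw [aeval_def, aeval_def, eval₂_eq', eval₂_eq', Finset.mul_sum]
  refine Finset.sum_congr rfl fun m hm => ?_
  have h1 : ∑ i, m i = d := by
    have := hp (mem_support_iff.1 hm)
    rw [← this, Finsupp.weight_apply, Finsupp.sum_fintype]
    · simp
    · simp
  have h2 : ∏ i, (c • x) i ^ m i = c ^ d * ∏ i, x i ^ m i := by
    rw [← h1, ← Finset.prod_pow_eq_pow_sum, ← Finset.prod_mul_distrib]
    refine Finset.prod_congr rfl fun i _ => ?_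
    rw [Pi.smul_apply, smul_eq_mul, mul_pow]
  rw [h2]
  ring

theorem mp_smul {F : Tuple k N} (hF : ∀ i, (F i).IsHomogeneous d) (c : E) (x : Fin (N + 1) → E) :
    mp F (c • x) = c ^ d • mp F x := by
  funext i
  exact aeval_smul' (hF i) c x

theorem iter_smul {F : Tuple k N} (hF : ∀ i, (F i).IsHomogeneous d) (c : E)
    (x : Fin (N + 1) → E) (n : ℕ) :
    (mp F)^[n] (c • x) = c ^ (d ^ n) • (mp F)^[n] x := by
  induction n with
  | zero => simp
  | succ n ih =>
    rw [Function.iterate_succ_apply', Function.iterate_succ_apply', ih, mp_smul hF, ← pow_mul,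
      pow_succ]

end mp

section peq

variable {E : Type} [Field E] {N : ℕ} {x y z : Fin (N + 1) → E}

theorem PEq.refl (x : Fin (N + 1) → E) : PEq x x := ⟨1, one_ne_zero, (one_smul E x).symm⟩

theorem PEq.symm (h : PEq x y) : PEq y x := by
  obtain ⟨c, hc, rfl⟩ := h
  exact ⟨c⁻¹, inv_ne_zero hc, by rw [smul_smul, inv_mul_cancel₀ hc, one_smul]⟩

theorem PEq.trans (h : PEq x y) (h' : PEq y z) : PEq x z := by
  obtain ⟨c, hc, rfl⟩ := h
  obtain ⟨c', hc', rfl⟩ := h'
  exact ⟨c' * c, mul_ne_zero hc' hc, by rw [smul_smul]⟩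

theorem PEq.ne_zero (h : PEq x y) (hx : x ≠ 0) : y ≠ 0 := by
  obtain ⟨c, hc, rfl⟩ := h
  exact smul_ne_zero hc hx

theorem PEq.ne_zero' (h : PEq x y) (hy : y ≠ 0) : x ≠ 0 := h.symm.ne_zero hy

theorem peq_smul {c : E} (hc : c ≠ 0) (x : Fin (N + 1) → E) : PEq x (c • x) := ⟨c, hc, rfl⟩

variable {k : Type} [Field k] [Algebra k E] {d : ℕ}

theorem PEq.mp {F : Tuple k N} (hF : ∀ i, (F i).IsHomogeneous d) (h : PEq x y) :
    PEq (mp F x) (mp F y) := by
  obtain ⟨c, hc, rfl⟩ := h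
  exact ⟨c ^ d, pow_ne_zero _ hc, mp_smul hF c x⟩

theorem PEq.iter {F : Tuple k N} (hF : ∀ i, (F i).IsHomogeneous d) (h : PEq x y) (n : ℕ) :
    PEq ((OP.mp F)^[n] x) ((OP.mp F)^[n] y) := by
  obtain ⟨c, hc, rfl⟩ := h
  exact ⟨c ^ (d ^ n), pow_ne_zero _ hc, iter_smul hF c x n⟩

/-- every point has coordinates one of which is `1` -/
theorem exists_norm1 (hx : x ≠ 0) : ∃ y : Fin (N + 1) → E, (∃ j, y j = 1) ∧ PEq x y := by
  obtain ⟨j, hj⟩ := Function.ne_iff.1 hx
  exact ⟨(x j)⁻¹ • x, ⟨j, inv_mul_cancel₀ hj⟩, peq_smul (inv_ne_zero hj) x⟩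

/-- two vectors of the same point with the same coordinate equal to `1` are equal -/
theorem PEq.eq_of_one (h : PEq x y) {j : Fin (N + 1)} (hx : x j = 1) (hy : y j = 1) : x = y := by
  obtain ⟨c, hc, rfl⟩ := h
  have h1 : c = 1 := by
    have : c * x j = 1 := hy
    rwa [hx, mul_one] at this
  rw [h1, one_smul]

end peq

section cong

variable {E Γ : Type} [Field E] [LinearOrderedCommGroupWithZero Γ] {N : ℕ} {ν : Valuation E Γ}
  {x y z : Fin (N + 1) → E}

theorem Cong.left_ne (h : Cong ν x y) : x ≠ 0 := by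
  obtain ⟨a, b, -, ⟨i, hi⟩, -⟩ := h
  rintro rfl
  simp at hi

theorem val_eq_one_of {s t : E} (hs : ν s = 1) (h : ν (s - t) < 1) : ν t = 1 := by
  have h1 : ν (s - t) < ν s := by rwa [hs]
  have h2 := Valuation.map_sub_eq_of_lt_right ν h1
  have e : s - t - s = -t := by ring
  rw [e, Valuation.map_neg] at h2
  rw [h2, hs]

theorem val_le_one_of {s t : E} (hs : ν s ≤ 1) (h : ν (s - t) < 1) : ν t ≤ 1 := by
  have h1 : t = s - (s - t) := by ring
  rw [h1]
  exact (Valuation.map_sub ν _ _).trans (max_le hs h.le)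

theorem Cong.symm (h : Cong ν x y) : Cong ν y x := by
  obtain ⟨a, b, h1, ⟨i, hi⟩, h3⟩ := h
  refine ⟨b, a, fun j => val_le_one_of (h1 j) (h3 j), ⟨i, val_eq_one_of hi (h3 i)⟩, fun j => ?_⟩
  rw [Valuation.map_sub_swap]
  exact h3 j

theorem Cong.right_ne (h : Cong ν x y) : y ≠ 0 := h.symm.left_ne

/-- two multipliers which make a vector unimodular have the same absolute value -/
theorem val_eq_of_unimod {a b : E} (ha : ∀ i, ν (a * x i) ≤ 1) (ha' : ∃ i, ν (a * x i) = 1)
    (hb : ∀ i, ν (b * x i) ≤ 1) (hb' : ∃ i, ν (b * x i) = 1) : ν a = ν b := by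
  have key : ∀ {a b : E}, (∃ i, ν (a * x i) = 1) → (∀ i, ν (b * x i) ≤ 1) → ν b ≤ ν a := by
    rintro a b ⟨i, hi⟩ hb
    have h1 := hb i
    rw [map_mul] at h1 hi
    have h2 : ν (x i) ≠ 0 := by
      intro h0
      rw [h0, mul_zero] at hi
      exact zero_ne_one hi
    have h3 : ν b * ν (x i) ≤ ν a * ν (x i) := by rw [hi]; exact h1
    exact (mul_le_mul_iff_left₀ (zero_lt_iff.2 h2)).1 h3
  exact le_antisymm (key hb' ha) (key ha' hb)

theorem Cong.trans (h : Cong ν x y) (h' : Cong ν y z) : Cong ν x z := by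
  obtain ⟨a, b, h1, h2, h3⟩ := h
  obtain ⟨a', b', h1', h2', h3'⟩ := h'
  have hb1 : ∀ i, ν (b * y i) ≤ 1 := fun j => val_le_one_of (h1 j) (h3 j)
  have hb2 : ∃ i, ν (b * y i) = 1 := by
    obtain ⟨i, hi⟩ := h2
    exact ⟨i, val_eq_one_of hi (h3 i)⟩
  have hv : ν b = ν a' := val_eq_of_unimod hb1 hb2 h1' h2'
  have ha' : a' ≠ 0 := by
    rintro rfl
    obtain ⟨i, hi⟩ := h2'
    simp at hi
  refine ⟨a, b / a' * b', h1, h2, fun i => ?_⟩
  have e : a * x i - b / a' * b' * z i =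
      (a * x i - b * y i) + b / a' * (a' * y i - b' * z i) := by
    field_simp
    ring
  rw [e]
  refine (Valuation.map_add ν _ _).trans_lt (max_lt (h3 i) ?_)
  have hva : ν a' ≠ 0 := (Valuation.ne_zero_iff ν).2 ha'
  rw [map_mul, map_div₀, hv, div_self hva, one_mul]
  exact h3' i

theorem Cong.congr_left {x' : Fin (N + 1) → E} (h : Cong ν x y) (hx : PEq x x') : Cong ν x' y := by
  obtain ⟨c, hc, rfl⟩ := hx
  obtain ⟨a, b, h1, h2, h3⟩ := h
  have e : ∀ i, a * c⁻¹ * (c • x) i = a * x i := by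
    intro i
    rw [Pi.smul_apply, smul_eq_mul]
    field_simp
  refine ⟨a * c⁻¹, b, ?_, ?_, ?_⟩
  · intro i; rw [e]; exact h1 i
  · obtain ⟨i, hi⟩ := h2; exact ⟨i, by rw [e]; exact hi⟩
  · intro i; rw [e]; exact h3 i

theorem Cong.congr_right {y' : Fin (N + 1) → E} (h : Cong ν x y) (hy : PEq y y') : Cong ν x y' :=
  (h.symm.congr_left hy).symm

/-- a coordinate of maximal absolute value -/
theorem exists_max (ν : Valuation E Γ) (hx : x ≠ 0) : ∃ j, x j ≠ 0 ∧ ∀ i, ν (x i / x j) ≤ 1 := by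
  obtain ⟨j, -, hj⟩ := Finset.exists_max_image Finset.univ (fun i => ν (x i))
    ⟨0, Finset.mem_univ 0⟩
  have hj0 : x j ≠ 0 := by
    intro h0
    apply hx
    funext i
    have h1 := hj i (Finset.mem_univ i)
    rw [h0, map_zero] at h1
    exact (Valuation.zero_iff ν).1 (le_zero_iff.1 h1)
  refine ⟨j, hj0, fun i => ?_⟩
  rw [map_div₀]
  exact div_le_one_of_le₀ (hj i (Finset.mem_univ i)) zero_le

theorem Cong.refl (ν : Valuation E Γ) (hx : x ≠ 0) : Cong ν x x := by
  obtain ⟨j, hj, h⟩ := exists_max ν hx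
  refine ⟨(x j)⁻¹, (x j)⁻¹, fun i => ?_, ⟨j, ?_⟩, fun i => ?_⟩
  · rw [mul_comm, ← div_eq_mul_inv]; exact h i
  · rw [inv_mul_cancel₀ hj, map_one]
  · rw [sub_self, map_zero]; exact zero_lt_one

theorem PEq.cong (ν : Valuation E Γ) (h : PEq x y) (hx : x ≠ 0) : Cong ν x y :=
  (Cong.refl ν hx).congr_right h

/-- Congruence in terms of quotients of coordinates. -/
theorem cong_iff : Cong ν x y ↔ ∃ j, x j ≠ 0 ∧ y j ≠ 0 ∧ (∀ i, ν (x i / x j) ≤ 1) ∧
    ∀ i, ν (x i / x j - y i / y j) < 1 := by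
  constructor
  · rintro ⟨a, b, h1, ⟨j, hj⟩, h3⟩
    have hj' := val_eq_one_of hj (h3 j)
    have h0 : ∀ {s : E}, ν s = 1 → s ≠ 0 := by
      rintro s hs rfl
      rw [map_zero] at hs
      exact zero_ne_one hs
    have ha := h0 hj
    have hb := h0 hj'
    have ha0 : a ≠ 0 := left_ne_zero_of_mul ha
    have hb0 : b ≠ 0 := left_ne_zero_of_mul hb
    have hx0 : x j ≠ 0 := right_ne_zero_of_mul ha
    have hy0 : y j ≠ 0 := right_ne_zero_of_mul hb
    refine ⟨j, hx0, hy0, fun i => ?_, fun i => ?_⟩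
    · have e : x i / x j = (a * x i) / (a * x j) := by field_simp
      rw [e, map_div₀, hj, div_one]
      exact h1 i
    · have e : x i / x j - y i / y j =
          ((a * x i - b * y i) * (b * y j) - (b * y i) * (a * x j - b * y j)) /
            ((a * x j) * (b * y j)) := by
        field_simp
        ring
      rw [e, map_div₀, map_mul, hj, hj', one_mul, div_one]
      refine (Valuation.map_sub ν _ _).trans_lt (max_lt ?_ ?_)
      · rw [map_mul, hj', mul_one]; exact h3 i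
      · rw [map_mul]
        calc ν (b * y i) * ν (a * x j - b * y j) ≤ 1 * ν (a * x j - b * y j) :=
              mul_le_mul_left (val_le_one_of (h1 i) (h3 i)) _
          _ = ν (a * x j - b * y j) := one_mul _
          _ < 1 := h3 j
  · rintro ⟨j, hx, hy, h1, h2⟩
    refine ⟨(x j)⁻¹, (y j)⁻¹, fun i => ?_, ⟨j, ?_⟩, fun i => ?_⟩
    · rw [mul_comm, ← div_eq_mul_inv]; exact h1 i
    · rw [inv_mul_cancel₀ hx, map_one]
    · rw [mul_comm, ← div_eq_mul_inv, mul_comm (y j)⁻¹, ← div_eq_mul_inv]; exact h2 i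

end cong

section nf

variable {K : Type} [Field K] [NumberField K] {N d : ℕ}

theorem mp_emb (F : Tuple K N) (x : Fin (N + 1) → K) : mp F (emb x) = emb (mp F x) := by
  funext i
  exact aeval_algebraMap_apply (AlgebraicClosure K) x (F i)

theorem iter_emb (F : Tuple K N) (x : Fin (N + 1) → K) (n : ℕ) :
    (mp F)^[n] (emb x) = emb ((mp F)^[n] x) := by
  induction n with
  | zero => rfl
  | succ n ih => rw [Function.iterate_succ_apply', Function.iterate_succ_apply', ih, mp_emb]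

theorem emb_ne_zero {x : Fin (N + 1) → K} (hx : x ≠ 0) : emb x ≠ 0 := by
  obtain ⟨j, hj⟩ := Function.ne_iff.1 hx
  intro h
  have h1 := congrFun h j
  simp only [emb, Pi.zero_apply, map_eq_zero] at h1
  exact hj h1

theorem mp_ne_zero {F : Tuple K N} (hF : IsEnd d F) {x : Fin (N + 1) → AlgebraicClosure K}
    (hx : x ≠ 0) : mp F x ≠ 0 := by
  intro h
  exact hx (hF.2 x fun i => congrFun h i)

theorem iter_ne_zero {F : Tuple K N} (hF : IsEnd d F) {x : Fin (N + 1) → AlgebraicClosure K}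
    (hx : x ≠ 0) (n : ℕ) : (mp F)^[n] x ≠ 0 := by
  induction n with
  | zero => exact hx
  | succ n ih => rw [Function.iterate_succ_apply']; exact mp_ne_zero hF ih

theorem iter_ne_zero' {F : Tuple K N} (hF : IsEnd d F) {x : Fin (N + 1) → K}
    (hx : x ≠ 0) (n : ℕ) : (mp F)^[n] x ≠ 0 := by
  intro h
  have h1 := iter_ne_zero hF (emb_ne_zero hx) n
  rw [iter_emb, h] at h1
  exact h1 (by funext i; exact map_zero _)

theorem peq_emb {x y : Fin (N + 1) → K} (hx : x ≠ 0) : PEq (emb x) (emb y) ↔ PEq x y := by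
  constructor
  · rintro ⟨c, hc, h⟩
    obtain ⟨j, hj⟩ := Function.ne_iff.1 hx
    have h1 : algebraMap K (AlgebraicClosure K) (y j) = c * algebraMap K _ (x j) := congrFun h j
    have h2 : algebraMap K (AlgebraicClosure K) (x j) ≠ 0 := by
      rwa [Ne, map_eq_zero]
    have h3 : c = algebraMap K _ (y j / x j) := by
      rw [map_div₀, h1]
      field_simp
    refine ⟨y j / x j, ?_, ?_⟩
    · intro h0
      rw [h0, map_zero] at h3
      exact hc h3
    · funext i
      have h4 : algebraMap K (AlgebraicClosure K) (y i) = c * algebraMap K _ (x i) := congrFun h i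
      apply (algebraMap K (AlgebraicClosure K)).injective
      rw [h4, Pi.smul_apply, smul_eq_mul, map_mul, h3]
  · rintro ⟨c, hc, rfl⟩
    refine ⟨algebraMap K _ c, (map_ne_zero _).2 hc, ?_⟩
    funext i
    exact map_mul _ _ _

/-- `Over` for the maximal ideals -/
theorem Over.lt_one_iff {v : HeightOneSpectrum (𝓞 K)} {A : ValuationSubring (AlgebraicClosure K)}
    (h : Over v A) (x : K) :
    A.valuation (algebraMap K (AlgebraicClosure K) x) < 1 ↔ v.valuation K x < 1 := by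
  rcases eq_or_ne x 0 with rfl | hx
  · simp
  have h1 : ∀ {Γ E : Type} [Field E] [LinearOrderedCommGroupWithZero Γ] (ν : Valuation E Γ) (z : E),
      z ≠ 0 → (ν z < 1 ↔ ¬ ν z⁻¹ ≤ 1) := by
    intro Γ E _ _ ν z hz
    have h0 : 0 < ν z := zero_lt_iff.2 ((Valuation.ne_zero_iff ν).2 hz)
    rw [map_inv₀, inv_le_one₀ h0, not_le]
  rw [h1 _ _ ((map_ne_zero _).2 hx), h1 _ _ hx, ← map_inv₀, ValuationSubring.valuation_le_one_iff,
    h]

theorem Over.le_one_iff {v : HeightOneSpectrum (𝓞 K)} {A : ValuationSubring (AlgebraicClosure K)}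
    (h : Over v A) (x : K) :
    A.valuation (algebraMap K (AlgebraicClosure K) x) ≤ 1 ↔ v.valuation K x ≤ 1 := by
  rw [ValuationSubring.valuation_le_one_iff, h]

theorem Over.eq_one_iff {v : HeightOneSpectrum (𝓞 K)} {A : ValuationSubring (AlgebraicClosure K)}
    (h : Over v A) (x : K) :
    A.valuation (algebraMap K (AlgebraicClosure K) x) = 1 ↔ v.valuation K x = 1 := by
  rw [eq_iff_le_not_lt, eq_iff_le_not_lt, h.lt_one_iff, h.le_one_iff]

theorem AA.mono {P Q : ValuationSubring (AlgebraicClosure K) → Prop} (h : AA K P)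
    (hPQ : ∀ A, P A → Q A) : AA K Q :=
  h.subset fun _ ⟨A, hA, hQ⟩ => ⟨A, hA, fun hP => hQ (hPQ A hP)⟩

theorem AA.and {P Q : ValuationSubring (AlgebraicClosure K) → Prop} (h : AA K P) (h' : AA K Q) :
    AA K fun A => P A ∧ Q A := by
  refine (h.union h').subset ?_
  rintro v ⟨A, hA, hPQ⟩
  by_cases hP : P A
  · exact Or.inr ⟨A, hA, fun hQ => hPQ ⟨hP, hQ⟩⟩
  · exact Or.inl ⟨A, hA, hP⟩

theorem AA.of_forall {P : ValuationSubring (AlgebraicClosure K) → Prop} (h : ∀ A, P A) :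
    AA K P := by
  refine Set.finite_empty.subset ?_
  rintro v ⟨A, -, hP⟩
  exact hP (h A)

theorem AA.forall_mem {ι : Type*} {s : Set ι} (hs : s.Finite)
    {P : ι → ValuationSubring (AlgebraicClosure K) → Prop} (h : ∀ i ∈ s, AA K (P i)) :
    AA K fun A => ∀ i ∈ s, P i A := by
  refine (hs.biUnion h).subset ?_
  rintro v ⟨A, hA, hP⟩
  push Not at hP
  obtain ⟨i, hi, hP⟩ := hP
  exact Set.mem_biUnion hi ⟨A, hA, hP⟩

theorem AA.forall_fin {ι : Type*} [Finite ι]
    {P : ι → ValuationSubring (AlgebraicClosure K) → Prop} (h : ∀ i, AA K (P i)) :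
    AA K fun A => ∀ i, P i A :=
  (AA.forall_mem (Set.toFinite (Set.univ : Set ι)) fun i _ => h i).mono
    fun _ hA i => hA i (Set.mem_univ i)

end nf

end Pool.Agent.W2helper9.OP
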