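import Pool.Agent.W2helper9.OP.Main
import Pool.Agent.W2helper11.OP.Sta
import Pool.Agent.W2helper12.OP.Ext
import Pool.Agent.W2helper17.OP.Comp
import Pool.Agent.W2helper24.OP.Gae
import Pool.Agent.W2helper43.OP.FIB
import Pool.Agent.W2helper49.OP.FQ
import Pool.Agent.W2helper51.OP.Core
import Pool.Agent.W2helper51.OP.Floc
import Pool.Agent.W2helper53.OP.Dist
import Pool.Agent.W2helper53.OP.Frob
import Pool.Agent.W2helper56.OP.Cmap
import Pool.Agent.W2helper69.OP.Gfin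
import Pool.Agent.W2helper71.OP.GR
import Pool.Agent.W2helper92.OP.Lift
import Pool.Agent.W2helper93.OP.Int
import Pool.Agent.W4helper65.OP.Dens

/-!
# Project OP: the theorems without hypotheses
-/

set_option autoImplicit false

namespace Pool.Agent.W2helper9.OP

open Pool.Agent.Helper819.Dyn (Tuple IsEnd)
open IsDedekindDomain NumberField

variable {K : Type} [Field K] [NumberField K] {N d : ℕ} {F : Tuple K N}

theorem criterion' (hd : 1 ≤ d) (hF : IsEnd d F) {γ : Fin (N + 1) → K} (hγ : γ ≠ 0) :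
    [AllInf F γ, AllDense F γ, Preper F γ ∨ NonPerMod d F γ].TFAE :=
  criterion Pool.Agent.W2helper93.OP.p_int Pool.Agent.W2helper53.OP.DIST
    Pool.Agent.W2helper17.OP.p_comp Pool.Agent.W2helper56.OP.p_cmap Pool.Agent.W2helper24.OP.p_gae
    Pool.Agent.W2helper71.OPGR.t_GR Pool.Agent.W2helper69.OP.p_gfin Pool.Agent.W2helper43.OP.p_fib
    Pool.Agent.W2helper92.OP.p_lift Pool.Agent.W2helper12.OP.p_ext Pool.Agent.W2helper12.OP.p_ext0
    Pool.Agent.W2helper51.OP.p_floc Pool.Agent.W2helper53.OP.FROB Pool.Agent.W2helper51.OP.p_res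
    Pool.Agent.W2helper49.OP.p_fq Pool.Agent.W2helper11.OP.p_sta Pool.Agent.W2helper11.OP.p_stb
    Pool.Agent.W2helper51.OP.p_core Pool.Agent.W4helper65.OP.p_DENS hd hF hγ

theorem fibre' (hd : 1 ≤ d) (hF : IsEnd d F) {γ γ' : Fin (N + 1) → K} (hγ : γ ≠ 0) (hγ' : γ' ≠ 0)
    (hne : ¬ PEq γ γ') (him : PEq (mp F γ) (mp F γ')) : AllDense F γ ∨ AllDense F γ' :=
  fibre Pool.Agent.W2helper93.OP.p_int Pool.Agent.W2helper53.OP.DIST
    Pool.Agent.W2helper17.OP.p_comp Pool.Agent.W2helper56.OP.p_cmap Pool.Agent.W2helper24.OP.p_gae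
    Pool.Agent.W2helper71.OPGR.t_GR Pool.Agent.W2helper69.OP.p_gfin Pool.Agent.W2helper43.OP.p_fib
    Pool.Agent.W2helper92.OP.p_lift Pool.Agent.W2helper12.OP.p_ext Pool.Agent.W2helper12.OP.p_ext0
    Pool.Agent.W2helper51.OP.p_floc Pool.Agent.W2helper53.OP.FROB Pool.Agent.W2helper51.OP.p_res
    Pool.Agent.W2helper49.OP.p_fq Pool.Agent.W2helper11.OP.p_sta
    Pool.Agent.W2helper51.OP.p_core Pool.Agent.W4helper65.OP.p_DENS hd hF hγ hγ' hne him

end Pool.Agent.W2helper9.OP
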