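import Pool.Agent.W2helper9.OP.All

/-!
# Project OP, part 3: irreducible fibres

If an automorphism `σ` of `K̄` over `K` fixes no point of the fibre of `Φ^n` over `γ` then `γ` is a good
target. This applies if the Galois group acts transitively on the fibre and it has at least two
points (Jordan).
-/

set_option autoImplicit false

open MvPolynomial IsDedekindDomain NumberField Filter

namespace Pool.Agent.W2helper9.OP

open Pool.Agent.Helper819.Dyn (Tuple IsEnd)

/-- **Jordan** A transitive group of permutations of a finite set with at least two elements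
contains a permutation without fixed points. -/
theorem exists_fixfree {G X : Type*} [Group G] [MulAction G X] [Finite X] [Nontrivial X]
    (ht : ∀ x y : X, ∃ g : G, g • x = y) : ∃ g : G, ∀ x : X, g • x ≠ x := by
  classical
  have := Fintype.ofFinite X
  let H := (MulAction.toPermHom G X).range
  have : Fintype H := Fintype.ofFinite _
  have hB := MulAction.sum_card_fixedBy_eq_card_orbits_mul_card_group H X
  have htH : ∀ x y : X, ∃ h : H, h • x = y := by
    intro x y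
    obtain ⟨g, hg⟩ := ht x y
    exact ⟨⟨MulAction.toPermHom G X g, ⟨g, rfl⟩⟩, hg⟩
  have horb : Fintype.card (MulAction.orbitRel.Quotient H X) = 1 := by
    obtain ⟨x₀, -⟩ := exists_pair_ne X
    rw [Fintype.card_eq_one_iff]
    refine ⟨Quotient.mk'' x₀, fun y => ?_⟩
    induction y using Quotient.inductionOn' with
    | h y =>
      refine Quotient.sound' ?_
      obtain ⟨h, hh⟩ := htH x₀ y
      exact ⟨h, hh⟩
  rw [horb, one_mul] at hB
  by_contra hcon
  push Not at hcon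
  have h1 : ∀ h : H, 1 ≤ Fintype.card (MulAction.fixedBy X h) := by
    rintro ⟨p, ⟨g, rfl⟩⟩
    obtain ⟨x, hx⟩ := hcon g
    exact Fintype.card_pos_iff.2 ⟨⟨x, hx⟩⟩
  have h2 : 1 < Fintype.card (MulAction.fixedBy X (1 : H)) := by
    obtain ⟨x, y, hxy⟩ := exists_pair_ne X
    rw [Fintype.one_lt_card_iff]
    exact ⟨⟨x, one_smul H x⟩, ⟨y, one_smul H y⟩, fun h => hxy (congrArg Subtype.val h)⟩
  have h3 : Fintype.card H < ∑ h : H, Fintype.card (MulAction.fixedBy X h) := by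
    rw [← Finset.card_univ, Finset.card_eq_sum_ones]
    exact Finset.sum_lt_sum (fun h _ => h1 h) ⟨1, Finset.mem_univ _, h2⟩
  omega

noncomputable section

variable {K : Type} [Field K] [NumberField K] {N d : ℕ} {F : Tuple K N}

/-- The action of the Galois group on vectors. -/
def gal (σ : AlgebraicClosure K ≃ₐ[K] AlgebraicClosure K) (x : Fin (N + 1) → AlgebraicClosure K) :
    Fin (N + 1) → AlgebraicClosure K := fun i => σ (x i)

theorem gal_mp (σ : AlgebraicClosure K ≃ₐ[K] AlgebraicClosure K)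
    (x : Fin (N + 1) → AlgebraicClosure K) : mp F (gal σ x) = gal σ (mp F x) := by
  funext i
  exact (comp_aeval_apply (f := x)
    (σ : AlgebraicClosure K →ₐ[K] AlgebraicClosure K) (F i)).symm

theorem gal_iter (σ : AlgebraicClosure K ≃ₐ[K] AlgebraicClosure K)
    (x : Fin (N + 1) → AlgebraicClosure K) (n : ℕ) :
    (mp F)^[n] (gal σ x) = gal σ ((mp F)^[n] x) := by
  induction n with
  | zero => rfl
  | succ n ih => rw [Function.iterate_succ_apply', Function.iterate_succ_apply', ih, gal_mp]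

theorem gal_emb (σ : AlgebraicClosure K ≃ₐ[K] AlgebraicClosure K) (γ : Fin (N + 1) → K) :
    gal σ (emb γ) = emb γ := by
  funext i
  exact σ.commutes _

theorem gal_peq (σ : AlgebraicClosure K ≃ₐ[K] AlgebraicClosure K)
    {x y : Fin (N + 1) → AlgebraicClosure K} (h : PEq x y) : PEq (gal σ x) (gal σ y) := by
  obtain ⟨c, hc, rfl⟩ := h
  refine ⟨σ c, ?_, ?_⟩
  · intro h0
    exact hc ((map_eq_zero σ).1 h0)
  · funext i
    exact map_mul σ c (x i)

/-- If `σ` fixes no point of the fibre of `Φ^n` over `γ` then `Free` holds. -/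
theorem free_of_fixfree (hd : 1 ≤ d) (hF : IsEnd d F) {γ : Fin (N + 1) → K} (hγ : γ ≠ 0) (n : ℕ)
    (σ : AlgebraicClosure K ≃ₐ[K] AlgebraicClosure K)
    (h : ∀ δ : Fin (N + 1) → AlgebraicClosure K, δ ≠ 0 → PEq ((mp F)^[n] δ) (emb γ) →
      ¬ PEq (gal σ δ) δ) : Free F γ := by
  have hWfin : (W F n γ).Finite :=
    (Pool.Agent.W2helper43.OP.p_fib K N d F hd hF n (emb γ) (emb_ne_zero hγ)).subset
      fun δ hδ => ⟨hδ.1, hδ.2.1⟩
  let S : Set (AlgebraicClosure K) := ⋃ δ ∈ W F n γ, Set.range δ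
  have hS : S.Finite := hWfin.biUnion fun δ _ => Set.finite_range δ
  have : Finite S := hS.to_subtype
  let L₀ := FiniteGaloisIntermediateField.adjoin K S
  have hSL : S ⊆ L₀.toIntermediateField := FiniteGaloisIntermediateField.subset_adjoin K S
  generalize hL : L₀.toIntermediateField = L at hSL
  have : FiniteDimensional K L := by rw [← hL]; infer_instance
  have : IsGalois K L := by rw [← hL]; infer_instance
  refine ⟨n, L, inferInstance, inferInstance, σ.restrictNormal L, ?_, ?_⟩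
  · intro δ hδ i
    exact hSL (Set.mem_biUnion hδ ⟨i, rfl⟩)
  intro y hy hfix
  refine h (fun i => (y i : AlgebraicClosure K)) ?_ hy.2.1 ?_
  · obtain ⟨⟨j, hj⟩, -⟩ := hy
    intro h0
    have h1 : ((y j : L) : AlgebraicClosure K) = 0 := congrFun h0 j
    have h3 : ((y j : L) : AlgebraicClosure K) = 1 := hj
    rw [h3] at h1
    exact one_ne_zero h1
  · have e : gal σ (fun i => (y i : AlgebraicClosure K)) = fun i => (y i : AlgebraicClosure K) := by
      funext i
      have h1 : ((σ.restrictNormal L (y i) : L) : AlgebraicClosure K) = σ (y i) :=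
        AlgEquiv.restrictNormal_commutes σ L (y i)
      have h2 : σ.restrictNormal L (y i) = y i := congrFun hfix i
      show σ (y i : AlgebraicClosure K) = y i
      rw [← h1, h2]
    rw [e]
    exact PEq.refl _

/-- Normalised vectors: the first coordinate which is not `0` is `1`. -/
def Nrm (δ : Fin (N + 1) → AlgebraicClosure K) : Prop := ∃ j, δ j = 1 ∧ ∀ i < j, δ i = 0

theorem Nrm.eq {x y : Fin (N + 1) → AlgebraicClosure K} (hx : Nrm x) (hy : Nrm y)
    (h : PEq x y) : x = y := by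
  obtain ⟨c, hc, rfl⟩ := h
  obtain ⟨j, hj, hj'⟩ := hx
  obtain ⟨l, hl, hl'⟩ := hy
  change c * x l = 1 at hl
  have e : j = l := by
    rcases lt_trichotomy j l with h | h | h
    · exfalso
      have h1 : c * x j = 0 := hl' j h
      rw [hj, mul_one] at h1
      exact hc h1
    · exact h
    · exfalso
      rw [hj' l h, mul_zero] at hl
      exact zero_ne_one hl
  subst e
  have h1 : c = 1 := by rwa [hj, mul_one] at hl
  rw [h1, one_smul]

theorem Nrm.ne_zero {x : Fin (N + 1) → AlgebraicClosure K} (hx : Nrm x) : x ≠ 0 := by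
  obtain ⟨j, hj, -⟩ := hx
  rintro rfl
  exact zero_ne_one hj

theorem Nrm.gal {x : Fin (N + 1) → AlgebraicClosure K} (hx : Nrm x)
    (σ : AlgebraicClosure K ≃ₐ[K] AlgebraicClosure K) : Nrm (gal σ x) := by
  obtain ⟨j, hj, hj'⟩ := hx
  refine ⟨j, ?_, fun i hi => ?_⟩
  · show σ (x j) = 1
    rw [hj, map_one]
  · show σ (x i) = 0
    rw [hj' i hi, map_zero]

theorem exists_nrm {x : Fin (N + 1) → AlgebraicClosure K} (hx : x ≠ 0) :
    ∃ y : Fin (N + 1) → AlgebraicClosure K, Nrm y ∧ PEq x y := by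
  classical
  obtain ⟨j, hj, hmin⟩ : ∃ j, x j ≠ 0 ∧ ∀ i < j, x i = 0 := by
    have hs : (Finset.univ.filter fun j => x j ≠ 0).Nonempty := by
      obtain ⟨j, hj⟩ := Function.ne_iff.1 hx
      exact ⟨j, Finset.mem_filter.2 ⟨Finset.mem_univ _, hj⟩⟩
    refine ⟨_, (Finset.mem_filter.1 (Finset.min'_mem _ hs)).2, fun i hi => ?_⟩
    by_contra h0
    exact absurd (Finset.min'_le _ i (Finset.mem_filter.2 ⟨Finset.mem_univ _, h0⟩)) (not_le.2 hi)
  exact ⟨(x j)⁻¹ • x, ⟨j, inv_mul_cancel₀ hj, fun i hi => by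
    show (x j)⁻¹ * x i = 0
    rw [hmin i hi, mul_zero]⟩, peq_smul (inv_ne_zero hj) x⟩

/-- The points of the fibre of `Φ^n` over `γ`. -/
def FibT (F : Tuple K N) (n : ℕ) (γ : Fin (N + 1) → K) : Type :=
  {δ : Fin (N + 1) → AlgebraicClosure K // Nrm δ ∧ PEq ((mp F)^[n] δ) (emb γ)}

instance act (F : Tuple K N) (n : ℕ) (γ : Fin (N + 1) → K) :
    MulAction (AlgebraicClosure K ≃ₐ[K] AlgebraicClosure K) (FibT F n γ) where
  smul σ δ := ⟨gal σ δ.1, δ.2.1.gal σ, by
    have h1 := gal_peq σ δ.2.2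
    rw [gal_emb, ← gal_iter] at h1
    exact h1⟩
  one_smul δ := Subtype.ext rfl
  mul_smul σ τ δ := Subtype.ext rfl

theorem fixfree_of_trans (hd : 1 ≤ d) (hF : IsEnd d F) {γ : Fin (N + 1) → K} (hγ : γ ≠ 0) (n : ℕ)
    (ht : ∀ δ δ' : Fin (N + 1) → AlgebraicClosure K, δ ≠ 0 → δ' ≠ 0 →
      PEq ((mp F)^[n] δ) (emb γ) → PEq ((mp F)^[n] δ') (emb γ) → ∃ σ, PEq (gal σ δ) δ')
    (h2 : ∃ δ δ' : Fin (N + 1) → AlgebraicClosure K, δ ≠ 0 ∧ δ' ≠ 0 ∧
      PEq ((mp F)^[n] δ) (emb γ) ∧ PEq ((mp F)^[n] δ') (emb γ) ∧ ¬ PEq δ δ') :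
    ∃ σ : AlgebraicClosure K ≃ₐ[K] AlgebraicClosure K,
      ∀ δ : Fin (N + 1) → AlgebraicClosure K, δ ≠ 0 → PEq ((mp F)^[n] δ) (emb γ) →
        ¬ PEq (gal σ δ) δ := by
  have : Finite (FibT F n γ) := by
    refine Set.Finite.to_subtype
      ((Pool.Agent.W2helper43.OP.p_fib K N d F hd hF n (emb γ) (emb_ne_zero hγ)).subset ?_)
    rintro δ ⟨⟨j, hj, -⟩, h⟩
    exact ⟨⟨j, hj⟩, h⟩
  have key : ∀ δ : Fin (N + 1) → AlgebraicClosure K, δ ≠ 0 → PEq ((mp F)^[n] δ) (emb γ) →
      ∃ x : FibT F n γ, PEq δ x.1 := by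
    intro δ hδ h
    obtain ⟨y, hy, hy'⟩ := exists_nrm hδ
    exact ⟨⟨y, hy, (hy'.symm.iter hF.1 n).trans h⟩, hy'⟩
  have : Nontrivial (FibT F n γ) := by
    obtain ⟨δ, δ', h0, h0', h1, h1', hne⟩ := h2
    obtain ⟨x, hx⟩ := key δ h0 h1
    obtain ⟨x', hx'⟩ := key δ' h0' h1'
    refine ⟨x, x', fun h => hne ?_⟩
    rw [h] at hx
    exact hx.trans hx'.symm
  obtain ⟨σ, hσ⟩ := exists_fixfree (G := AlgebraicClosure K ≃ₐ[K] AlgebraicClosure K)
    (X := FibT F n γ) (fun x y => by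
      obtain ⟨σ, hσ⟩ := ht x.1 y.1 x.2.1.ne_zero y.2.1.ne_zero x.2.2 y.2.2
      exact ⟨σ, Subtype.ext ((x.2.1.gal σ).eq y.2.1 hσ)⟩)
  refine ⟨σ, fun δ hδ h hfix => ?_⟩
  obtain ⟨x, hx⟩ := key δ hδ h
  apply hσ x
  apply Subtype.ext
  refine (x.2.1.gal σ).eq x.2.1 ?_
  exact (gal_peq σ hx.symm).trans (hfix.trans hx)

/-- Positive answers for targets with a fixed point free automorphism of a fibre. -/
theorem dense_of_fixfree (hd : 1 ≤ d) (hF : IsEnd d F) {γ : Fin (N + 1) → K} (hγ : γ ≠ 0) (n : ℕ)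
    (h : ∃ σ : AlgebraicClosure K ≃ₐ[K] AlgebraicClosure K,
      ∀ δ : Fin (N + 1) → AlgebraicClosure K, δ ≠ 0 → PEq ((mp F)^[n] δ) (emb γ) →
        ¬ PEq (gal σ δ) δ) : AllDense F γ := by
  obtain ⟨σ, hσ⟩ := h
  exact dense_of_free Pool.Agent.W2helper93.OP.p_int Pool.Agent.W2helper53.OP.DIST
    Pool.Agent.W2helper17.OP.p_comp Pool.Agent.W2helper56.OP.p_cmap Pool.Agent.W2helper24.OP.p_gae
    Pool.Agent.W2helper43.OP.p_fib
    Pool.Agent.W2helper92.OP.p_lift Pool.Agent.W2helper12.OP.p_ext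
    Pool.Agent.W2helper51.OP.p_floc Pool.Agent.W2helper51.OP.p_res
    Pool.Agent.W2helper51.OP.p_core Pool.Agent.W4helper65.OP.p_DENS hd hF hγ
    (free_of_fixfree hd hF hγ n σ hσ)

/-- Of two points with the same image under an iterate at least one is a good target. -/
theorem fibre_n (hd : 1 ≤ d) (hF : IsEnd d F) {γ γ' : Fin (N + 1) → K} (hγ : γ ≠ 0) (hγ' : γ' ≠ 0)
    (hne : ¬ PEq γ γ') (n : ℕ) (him : PEq ((mp F)^[n] γ) ((mp F)^[n] γ')) :
    AllDense F γ ∨ AllDense F γ' := by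
  -- a prime of good reduction modulo which the points are different
  have h1 : {v : HeightOneSpectrum (𝓞 K) | Cong (v.valuation K) γ γ'}.Finite := by
    refine (Pool.Agent.W2helper53.OP.DIST Pool.Agent.W2helper93.OP.p_int K N (emb γ) (emb γ')
      (emb_ne_zero hγ) (emb_ne_zero hγ') (fun h => hne ((peq_emb hγ).1 h))).subset ?_
    intro v hv
    obtain ⟨A, hA⟩ := Pool.Agent.W2helper12.OP.p_ext0 K v
    exact ⟨A, hA, not_not.2 ((Pool.Agent.W2helper17.OP.p_comp K N v A hA γ γ').2 hv)⟩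
  obtain ⟨v, -, hv⟩ := (inf_primes Pool.Agent.W4helper65.OP.p_DENS (K := K)).exists_notMem_finite
    (h1.union (Pool.Agent.W2helper69.OP.p_gfin K N d F hF))
  have hv1 : ¬ Cong (v.valuation K) γ γ' := fun h => hv (Or.inl h)
  have hv2 : GoodRed d F v := by
    by_contra h
    exact hv (Or.inr h)
  obtain ⟨A, hA⟩ := Pool.Agent.W2helper12.OP.p_ext0 K v
  have hGA := Pool.Agent.W2helper71.OPGR.t_GR K N d F v hv2 A hA
  by_cases h2 : NonPerMod d F γ
  · exact Or.inl (((criterion' hd hF hγ).out 1 2).2 (Or.inr h2))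
  by_cases h3 : NonPerMod d F γ'
  · exact Or.inr (((criterion' hd hF hγ').out 1 2).2 (Or.inr h3))
  exfalso
  obtain ⟨k, hk, hk'⟩ : ∃ k : ℕ, 0 < k ∧ Cong (v.valuation K) ((mp F)^[k] γ) γ := by
    by_contra hcon
    push Not at hcon
    exact h2 ⟨v, hv2, hcon⟩
  obtain ⟨l, hl, hl'⟩ : ∃ k : ℕ, 0 < k ∧ Cong (v.valuation K) ((mp F)^[k] γ') γ' := by
    by_contra hcon
    push Not at hcon
    exact h3 ⟨v, hv2, hcon⟩
  rw [← Pool.Agent.W2helper17.OP.p_comp K N v A hA, ← iter_emb] at hk' hl'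
  have h4 := cong_mul Pool.Agent.W2helper56.OP.p_cmap hF.1 hGA hk' (l * n)
  have h5 := cong_mul Pool.Agent.W2helper56.OP.p_cmap hF.1 hGA hl' (k * n)
  have e : l * (k * n) = k * (l * n) := by ring
  rw [e] at h5
  apply hv1
  rw [← Pool.Agent.W2helper17.OP.p_comp K N v A hA]
  refine h4.symm.trans (Cong.trans ?_ h5)
  obtain ⟨m, hm⟩ : ∃ m, k * (l * n) = m + n := by
    refine ⟨k * (l * n) - n, (Nat.sub_add_cancel ?_).symm⟩
    calc n = 1 * (1 * n) := by ring
      _ ≤ k * (l * n) := Nat.mul_le_mul hk (Nat.mul_le_mul hl le_rfl)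
  rw [hm, Function.iterate_add_apply, Function.iterate_add_apply]
  have h6 : PEq ((mp F)^[n] (emb γ)) ((mp F)^[n] (emb γ')) := by
    rw [iter_emb, iter_emb]
    exact (peq_emb (iter_ne_zero' hF hγ n)).2 him
  exact (h6.iter hF.1 m).cong _
    (iter_ne_zero hF (iter_ne_zero hF (emb_ne_zero hγ) n) m)

end

end Pool.Agent.W2helper9.OP
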