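import Pool.Agent.W2helper9.OP.Basic
import Pool.Agent.K3h73.RS.Cheb

/-!
# Project OP: assembly
-/

set_option autoImplicit false

open MvPolynomial IsDedekindDomain NumberField Filter

namespace Pool.Agent.W2helper9.OP

open Pool.Agent.Helper819.Dyn (Tuple IsEnd)
open Pool.Agent.K3h30.RS (PosProportion)

section

variable (hINT : P_INT) (hDIST : P_DIST) (hCOMP : P_COMP) (hCMAP : P_CMAP) (hGAE : P_GAE)
  (hGR : P_GR) (hGFIN : P_GFIN) (hFIB : P_FIB) (hLIFT : P_LIFT) (hEXT : P_EXT) (hEXT0 : P_EXT0)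
  (hFLOC : P_FLOC) (hFROB : P_FROB) (hRES : P_RES) (hFQ : P_FQ) (hSTA : P_STA) (hSTB : P_STB)
  (hCORE : P_CORE) (hDENS : P_DENS)

variable {K : Type} [Field K] [NumberField K] {N d : ℕ} {F : Tuple K N}

/-- Q2 holds for the target `γ`. -/
def AllDense (F : Tuple K N) (γ : Fin (N + 1) → K) : Prop :=
  ∀ γ₁ : Fin (N + 1) → K, γ₁ ≠ 0 → Avoids F γ₁ γ → PosDensity (S F γ₁ γ)

/-- Q1 holds for the target `γ`. -/
def AllInf (F : Tuple K N) (γ : Fin (N + 1) → K) : Prop :=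
  ∀ γ₁ : Fin (N + 1) → K, γ₁ ≠ 0 → Avoids F γ₁ γ → (S F γ₁ γ).Infinite

/-- `γ` is not periodic modulo some prime ideal of good reduction. -/
def NonPerMod (d : ℕ) (F : Tuple K N) (γ : Fin (N + 1) → K) : Prop :=
  ∃ v : HeightOneSpectrum (𝓞 K), GoodRed d F v ∧
    ∀ k : ℕ, 0 < k → ¬ Cong (v.valuation K) ((mp F)^[k] γ) γ

include hDENS in
theorem inf_primes : Set.Infinite (Set.univ : Set (HeightOneSpectrum (𝓞 K))) := by
  refine (hDENS K Set.univ).2 ((hDENS K Set.univ).1 ?_)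
  obtain ⟨c, hc, h⟩ := Pool.Agent.K3h73.RS.t_CHEB K K AlgEquiv.refl ∅
  refine ⟨c, hc, ?_⟩
  filter_upwards [h] with X hX
  refine hX.trans ?_
  have hfin : {v : HeightOneSpectrum (𝓞 K) | v ∈ (Set.univ : Set (HeightOneSpectrum (𝓞 K))) ∧
      Ideal.absNorm v.asIdeal ≤ X}.Finite := by
    refine Set.Finite.of_finite_image (f := fun v => v.asIdeal)
      ((Ideal.finite_setOfPred_absNorm_le X).subset ?_) ?_
    · rintro I ⟨v, hv, rfl⟩
      exact hv.2
    · intro v _ w _ h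
      exact HeightOneSpectrum.ext h
  have h1 := Nat.card_mono hfin (s := {v : HeightOneSpectrum (𝓞 K) | (v ∉ (∅ : Finset _) ∧
    ∃ P : HeightOneSpectrum (𝓞 K), Pool.Agent.K3h30.RS.Above {v} P ∧
      ∀ x : 𝓞 K, P.valuation K ((AlgEquiv.refl : K ≃ₐ[K] K) (x : K) -
        (x : K) ^ (Ideal.absNorm v.asIdeal)) < 1) ∧ Ideal.absNorm v.asIdeal ≤ X})
    (fun v hv => ⟨Set.mem_univ _, hv.2⟩)
  exact_mod_cast h1

include hINT hDIST hCOMP hCMAP hGAE hFIB hLIFT hEXT hFLOC hRES hCORE hDENS in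
theorem dense_of_free (hd : 1 ≤ d) (hF : IsEnd d F) {γ : Fin (N + 1) → K} (hγ : γ ≠ 0)
    (h : Free F γ) : AllDense F γ := fun γ₁ hγ₁ hav =>
  (hDENS K _).1 (hCORE hINT hDIST hCOMP hCMAP hGAE hFIB hLIFT hEXT hFLOC hRES K N d F γ₁ γ hd hF
    hγ₁ hγ hav h)

include hINT hDIST hCOMP hCMAP hGAE hFIB hLIFT hEXT hEXT0 hFLOC hFROB hRES hFQ hSTB hCORE hDENS in
theorem dense_of_preper (hd : 1 ≤ d) (hF : IsEnd d F) {γ : Fin (N + 1) → K} (hγ : γ ≠ 0)
    (h : Preper F γ) : AllDense F γ := by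
  have h1 : AA K (fun A => GoodA F A ∧ Star F γ A) :=
    (hGAE hINT K N d F hF).and (hSTB hINT hDIST hGAE hFIB hCMAP K N d F γ hd hF hγ h)
  obtain ⟨v, -, hv⟩ := (inf_primes hDENS (K := K)).exists_notMem_finite h1
  obtain ⟨A, hA⟩ := hEXT0 K v
  have h2 : GoodA F A ∧ Star F γ A := by
    by_contra hcon
    exact hv ⟨A, hA, hcon⟩
  exact dense_of_free hINT hDIST hCOMP hCMAP hGAE hFIB hLIFT hEXT hFLOC hRES hCORE hDENS hd hF hγ
    (hFQ hFIB hFLOC hFROB hRES hCMAP K N d F γ v A hd hF hγ hA h2.1 h2.2)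

include hINT hDIST hCOMP hCMAP hGAE hGR hFIB hLIFT hEXT hEXT0 hFLOC hFROB hRES hFQ hSTA hCORE
  hDENS in
theorem dense_of_nonper (hd : 1 ≤ d) (hF : IsEnd d F) {γ : Fin (N + 1) → K} (hγ : γ ≠ 0)
    (h : NonPerMod d F γ) : AllDense F γ := by
  obtain ⟨v, hv, hk⟩ := h
  obtain ⟨A, hA⟩ := hEXT0 K v
  have h1 := hGR K N d F v hv A hA
  exact dense_of_free hINT hDIST hCOMP hCMAP hGAE hFIB hLIFT hEXT hFLOC hRES hCORE hDENS hd hF hγ
    (hFQ hFIB hFLOC hFROB hRES hCMAP K N d F γ v A hd hF hγ hA h1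
      (hSTA hCOMP hCMAP K N d F γ v A hF hγ hA h1 hk))

include hGFIN in
theorem nonper_of_inf (hF : IsEnd d F) {γ : Fin (N + 1) → K} (hγ : γ ≠ 0) (hp : ¬ Preper F γ)
    (h : AllInf F γ) : NonPerMod d F γ := by
  have h1 : mp F γ ≠ 0 := iter_ne_zero' hF hγ 1
  have h2 : Avoids F (mp F γ) γ := by
    intro m hm
    rw [← Function.iterate_succ_apply] at hm
    exact hp ⟨0, m + 1, Nat.succ_pos m, hm.symm⟩
  obtain ⟨v, hv, hv'⟩ := (h _ h1 h2).exists_notMem_finite (hGFIN K N d F hF)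
  refine ⟨v, not_not.1 hv', fun k hk => ?_⟩
  obtain ⟨m, rfl⟩ := Nat.exists_eq_succ_of_ne_zero hk.ne'
  rw [Function.iterate_succ_apply]
  exact hv m

include hDENS in
theorem inf_of_dense {γ : Fin (N + 1) → K} (h : AllDense F γ) : AllInf F γ :=
  fun γ₁ hγ₁ hav => (hDENS K _).2 (h γ₁ hγ₁ hav)

include hINT hDIST hCOMP hCMAP hGAE hGR hGFIN hFIB hLIFT hEXT hEXT0 hFLOC hFROB hRES hFQ hSTA hSTB
  hCORE hDENS in
/-- The criterion. -/
theorem criterion (hd : 1 ≤ d) (hF : IsEnd d F) {γ : Fin (N + 1) → K} (hγ : γ ≠ 0) :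
    [AllInf F γ, AllDense F γ, Preper F γ ∨ NonPerMod d F γ].TFAE := by
  tfae_have 2 → 1 := inf_of_dense hDENS
  tfae_have 1 → 3 := by
    intro h
    by_cases hp : Preper F γ
    · exact Or.inl hp
    · exact Or.inr (nonper_of_inf hGFIN hF hγ hp h)
  tfae_have 3 → 2 := by
    rintro (h | h)
    · exact dense_of_preper hINT hDIST hCOMP hCMAP hGAE hFIB hLIFT hEXT hEXT0 hFLOC hFROB hRES hFQ
        hSTB hCORE hDENS hd hF hγ h
    · exact dense_of_nonper hINT hDIST hCOMP hCMAP hGAE hGR hFIB hLIFT hEXT hEXT0 hFLOC hFROB hRES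
        hFQ hSTA hCORE hDENS hd hF hγ h
  tfae_finish

/-- iterates preserve congruence -/
theorem cong_iter (hCMAP : P_CMAP) (hF : ∀ i, (F i).IsHomogeneous d)
    {A : ValuationSubring (AlgebraicClosure K)} (hA : GoodA F A)
    {x y : Fin (N + 1) → AlgebraicClosure K} (h : Cong A.valuation x y) (n : ℕ) :
    Cong A.valuation ((mp F)^[n] x) ((mp F)^[n] y) := by
  induction n with
  | zero => exact h
  | succ n ih =>
    rw [Function.iterate_succ_apply', Function.iterate_succ_apply']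
    exact hCMAP K N d F A hF hA _ _ ih

/-- multiples of a period modulo `A` are periods -/
theorem cong_mul (hCMAP : P_CMAP) (hF : ∀ i, (F i).IsHomogeneous d)
    {A : ValuationSubring (AlgebraicClosure K)} (hA : GoodA F A)
    {x : Fin (N + 1) → AlgebraicClosure K} {k : ℕ} (h : Cong A.valuation ((mp F)^[k] x) x) (j : ℕ) :
    Cong A.valuation ((mp F)^[k * j] x) x := by
  induction j with
  | zero =>
    rw [Nat.mul_zero]
    exact Cong.refl _ h.right_ne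
  | succ j ih =>
    have e : k * (j + 1) = k + k * j := by ring
    rw [e, Function.iterate_add_apply]
    exact (cong_iter hCMAP hF hA ih k).trans h

include hINT hDIST hCOMP hCMAP hGAE hGR hGFIN hFIB hLIFT hEXT hEXT0 hFLOC hFROB hRES hFQ hSTA
  hCORE hDENS in
/-- Of two points with the same image at least one has the property of Q2. -/
theorem fibre (hd : 1 ≤ d) (hF : IsEnd d F) {γ γ' : Fin (N + 1) → K} (hγ : γ ≠ 0) (hγ' : γ' ≠ 0)
    (hne : ¬ PEq γ γ') (him : PEq (mp F γ) (mp F γ')) : AllDense F γ ∨ AllDense F γ' := by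
  -- a prime of good reduction modulo which the points are different
  have h1 : {v : HeightOneSpectrum (𝓞 K) | Cong (v.valuation K) γ γ'}.Finite := by
    refine (hDIST hINT K N (emb γ) (emb γ') (emb_ne_zero hγ) (emb_ne_zero hγ')
      (fun h => hne ((peq_emb hγ).1 h))).subset ?_
    intro v hv
    obtain ⟨A, hA⟩ := hEXT0 K v
    exact ⟨A, hA, not_not.2 ((hCOMP K N v A hA γ γ').2 hv)⟩
  obtain ⟨v, -, hv⟩ := (inf_primes hDENS (K := K)).exists_notMem_finite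
    (h1.union (hGFIN K N d F hF))
  have hv1 : ¬ Cong (v.valuation K) γ γ' := fun h => hv (Or.inl h)
  have hv2 : GoodRed d F v := by
    by_contra h
    exact hv (Or.inr h)
  obtain ⟨A, hA⟩ := hEXT0 K v
  have hGA := hGR K N d F v hv2 A hA
  by_cases h2 : NonPerMod d F γ
  · exact Or.inl (dense_of_nonper hINT hDIST hCOMP hCMAP hGAE hGR hFIB hLIFT hEXT hEXT0 hFLOC hFROB
      hRES hFQ hSTA hCORE hDENS hd hF hγ h2)
  by_cases h3 : NonPerMod d F γ'
  · exact Or.inr (dense_of_nonper hINT hDIST hCOMP hCMAP hGAE hGR hFIB hLIFT hEXT hEXT0 hFLOC hFROB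
      hRES hFQ hSTA hCORE hDENS hd hF hγ' h3)
  exfalso
  obtain ⟨k, hk, hk'⟩ : ∃ k : ℕ, 0 < k ∧ Cong (v.valuation K) ((mp F)^[k] γ) γ := by
    by_contra hcon
    push Not at hcon
    exact h2 ⟨v, hv2, hcon⟩
  obtain ⟨l, hl, hl'⟩ : ∃ k : ℕ, 0 < k ∧ Cong (v.valuation K) ((mp F)^[k] γ') γ' := by
    by_contra hcon
    push Not at hcon
    exact h3 ⟨v, hv2, hcon⟩
  rw [← hCOMP K N v A hA, ← iter_emb] at hk' hl'
  have h4 := cong_mul hCMAP hF.1 hGA hk' l
  have h5 := cong_mul hCMAP hF.1 hGA hl' k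
  rw [Nat.mul_comm] at h5
  apply hv1
  rw [← hCOMP K N v A hA]
  refine h4.symm.trans (Cong.trans ?_ h5)
  obtain ⟨m, hm⟩ := Nat.exists_eq_succ_of_ne_zero (Nat.mul_pos hk hl).ne'
  rw [hm, Function.iterate_succ_apply, Function.iterate_succ_apply]
  have h6 : PEq (mp F (emb γ)) (mp F (emb γ')) := by
    rw [mp_emb, mp_emb]
    exact (peq_emb (iter_ne_zero' hF hγ 1)).2 him
  exact (h6.iter hF.1 m).cong _ (iter_ne_zero hF (mp_ne_zero hF (emb_ne_zero hγ)) m)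

end

end Pool.Agent.W2helper9.OP
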