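import Pool.Agent.W2helper9.OP.Stm2
import Pool.Agent.W2helper9.OP.All

/-!
# Project OP, part 2: the case `N = 1` and the induction
-/

set_option autoImplicit false

open MvPolynomial IsDedekindDomain NumberField Filter

namespace Pool.Agent.W2helper9.OP

open Pool.Agent.Helper819.Dyn (Tuple IsEnd)

section

variable {K : Type} [Field K] [NumberField K] {N d : ℕ} {F : Tuple K N}

theorem peq_iter_fixed (hF : ∀ i, (F i).IsHomogeneous d) {ζ : Fin (N + 1) → AlgebraicClosure K}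
    (h : PEq (mp F ζ) ζ) (n : ℕ) : PEq ((mp F)^[n] ζ) ζ := by
  induction n with
  | zero => exact PEq.refl _
  | succ n ih =>
    rw [Function.iterate_succ_apply]
    exact (h.iter hF n).trans ih

/-- a nonperiodic point is not periodic modulo infinitely many primes if it is preperiodic -/
theorem np_of_inf (hF : IsEnd d F) {γ : Fin (N + 1) → K} (hγ : γ ≠ 0) (hper : ¬ Per F γ)
    (h1 : AllInf F γ) : NP F γ := by
  intro T hT
  have h2 : Avoids F (mp F γ) γ := by
    intro m hm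
    rw [← Function.iterate_succ_apply] at hm
    exact hper ⟨m + 1, Nat.succ_pos m, hm⟩
  obtain ⟨v, hv, hvT⟩ := (h1 _ (iter_ne_zero' hF hγ 1) h2).exists_notMem_finite hT
  refine ⟨v, hvT, fun k hk => ?_⟩
  obtain ⟨m, rfl⟩ := Nat.exists_eq_succ_of_ne_zero hk.ne'
  rw [Function.iterate_succ_apply]
  exact hv m

theorem p_n1 (hPRE : P_PRE) (hSIEG : P_SIEG) : P_N1 := by
  intro K _ _ d F hd hF γ hγ hper T hT
  by_cases hp : Preper F γ
  · exact np_of_inf hF hγ hper (((criterion' (by omega) hF hγ).out 0 2).2 (Or.inl hp)) T hT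
  obtain ⟨ζ, hζ, hfix, b, hb, hbb, hb2⟩ := hPRE K d F hd hF
  have hne : ¬ PEq (emb γ) ζ := by
    intro h
    have h1 : PEq (mp F (emb γ)) (emb γ) := ((h.mp hF.1).trans hfix).trans h.symm
    rw [mp_emb] at h1
    exact hper ⟨1, one_pos, (peq_emb (iter_ne_zero' hF hγ 1)).1 h1⟩
  have hAA : AA K fun A => GoodA F A ∧ ¬ Cong A.valuation (emb γ) ζ :=
    (Pool.Agent.W2helper24.OP.p_gae Pool.Agent.W2helper93.OP.p_int K 1 d F hF).and
      (Pool.Agent.W2helper53.OP.DIST Pool.Agent.W2helper93.OP.p_int K 1 (emb γ) ζ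
        (emb_ne_zero hγ) hζ hne)
  obtain ⟨v, hv, A, hA, n, hn⟩ := hSIEG Pool.Agent.W2helper56.OP.p_cmap
    Pool.Agent.W2helper24.OP.p_gae Pool.Agent.W2helper93.OP.p_int Pool.Agent.W2helper12.OP.p_ext
    K d F hF ζ b hζ hb hbb hb2 γ hγ hp _ (hT.union hAA)
  refine ⟨v, fun h => hv (Or.inl h), fun k hk hc => ?_⟩
  have hG : GoodA F A ∧ ¬ Cong A.valuation (emb γ) ζ := by
    by_contra hcon
    exact hv (Or.inr ⟨A, hA, hcon⟩)
  rw [← Pool.Agent.W2helper17.OP.p_comp K 1 v A hA, ← iter_emb] at hc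
  have h1 := cong_mul Pool.Agent.W2helper56.OP.p_cmap hF.1 hG.1 hc n
  have h2 := cong_iter Pool.Agent.W2helper56.OP.p_cmap hF.1 hG.1 hn (k * n - n)
  rw [← Function.iterate_add_apply, Nat.sub_add_cancel (Nat.le_mul_of_pos_left n hk)] at h2
  exact hG.2 (h1.symm.trans (h2.congr_right (peq_iter_fixed hF.1 hfix _)))

/-- The local-global principle for periodic points of triangular morphisms. -/
theorem np_tri (hPRE : P_PRE) (hSIEG : P_SIEG) (hITER : P_ITER) (hBEL : P_BEL) (hC0 : P_CASE0)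
    (hC1 : P_CASE1) (hC2 : P_CASE2) (K : Type) [Field K] [NumberField K] (d : ℕ) (hd : 2 ≤ d)
    (N : ℕ) (hN : 1 ≤ N) : ∀ F : Tuple K N, IsEnd d F → Tri F → ∀ γ : Fin (N + 1) → K, γ ≠ 0 →
      ¬ Per F γ → NP F γ := by
  induction N, hN using Nat.le_induction with
  | base => exact fun F hF _ γ hγ hper => p_n1 hPRE hSIEG K d F hd hF γ hγ hper
  | succ N hN IH =>
    intro F hF hT γ hγ hper
    obtain ⟨F', hF', hT', hB⟩ := hBEL K N d F hN (by omega) hF hT
    by_cases h0 : (fun i : Fin (N + 1) => γ i.castSucc) = 0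
    · exact absurd (hC0 K N d F F' (by omega) hF hF' hB γ hγ h0) hper
    by_cases h1 : Per F' (fun i => γ i.castSucc)
    · exact hC2 (p_n1 hPRE hSIEG) hITER Pool.Agent.W2helper56.OP.p_cmap
        Pool.Agent.W2helper17.OP.p_comp Pool.Agent.W2helper12.OP.p_ext0
        Pool.Agent.W2helper69.OP.p_gfin Pool.Agent.W2helper71.OPGR.t_GR K N d F F' hd hF hB γ h0 h1
        hper
    · exact hC1 K N F F' hB γ h0 (IH F' hF' hT' _ h0 h1)

/-- Q2 for the target `γ` follows from the local-global principle for `γ`. -/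
theorem dense_of_np (hd : 1 ≤ d) (hF : IsEnd d F) {γ : Fin (N + 1) → K} (hγ : γ ≠ 0)
    (h : ¬ Per F γ → NP F γ) : AllDense F γ := by
  refine ((criterion' hd hF hγ).out 1 2).2 ?_
  by_cases hp : Preper F γ
  · exact Or.inl hp
  right
  have hper : ¬ Per F γ := by
    rintro ⟨n, hn, h1⟩
    exact hp ⟨0, n, hn, h1.symm⟩
  obtain ⟨v, hv, hk⟩ := h hper _ (Pool.Agent.W2helper69.OP.p_gfin K N d F hF)
  exact ⟨v, not_not.1 hv, hk⟩

end

end Pool.Agent.W2helper9.OP
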