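import Pool.Agent.W2helper9.OP.Tri
import Pool.Agent.R847.HG.Ht

/-!
# Project OP, part 4: morphisms which preserve a pencil of hypersurfaces
-/

set_option autoImplicit false

open MvPolynomial IsDedekindDomain NumberField Filter

namespace Pool.Agent.W2helper9.OP

open Pool.Agent.Helper819.Dyn (Tuple IsEnd)

/-- polynomials with integral coefficients at congruent points -/
theorem eval_cong' {L Γ : Type} [Field L] [LinearOrderedCommGroupWithZero Γ] {n : ℕ}
    (ν : Valuation L Γ) (p : MvPolynomial (Fin n) L) (hp : ∀ m, ν (coeff m p) ≤ 1)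
    (x y : Fin n → L) (hx : ∀ i, ν (x i) ≤ 1) (hy : ∀ i, ν (y i) ≤ 1)
    (hxy : ∀ i, ν (x i - y i) < 1) :
    ν (eval x p) ≤ 1 ∧ ν (eval x p - eval y p) < 1 := by
  have he := ν.isEquiv_valuation_valuationSubring
  have h1 : ∀ z, ν.valuationSubring.valuation z < 1 ↔ ν z < 1 := by
    intro z
    exact (he.lt_one_iff_lt_one (x := z)).symm
  obtain ⟨h2, h3⟩ := Pool.Agent.W2helper56.OP.eval_cong ν.valuationSubring p hp x y hx hy
    (fun i => (h1 _).2 (hxy i))
  exact ⟨h2, (h1 _).1 h3⟩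

section

variable {K : Type} [Field K] [NumberField K] {N d e : ℕ} {F : Tuple K N} {f : Tuple K 1}
  {A : Fin (1 + 1) → MvPolynomial (Fin (N + 1)) K}

/-- the rational map to `ℙ^1` given by `A_0`, `A_1` -/
noncomputable def pr (A : Fin (1 + 1) → MvPolynomial (Fin (N + 1)) K) (x : Fin (N + 1) → K) :
    Fin (1 + 1) → K := fun i => aeval x (A i)

theorem pr_mp (hs : ∀ i, bind₁ F (A i) = bind₁ A (f i)) (x : Fin (N + 1) → K) :
    pr A (mp F x) = mp f (pr A x) := by
  funext i
  have h1 := congrArg (aeval x) (hs i)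
  rw [aeval_bind₁, aeval_bind₁] at h1
  exact h1

theorem pr_iter (hs : ∀ i, bind₁ F (A i) = bind₁ A (f i)) (x : Fin (N + 1) → K) (k : ℕ) :
    pr A ((mp F)^[k] x) = (mp f)^[k] (pr A x) := by
  induction k with
  | zero => rfl
  | succ k ih => rw [Function.iterate_succ_apply', Function.iterate_succ_apply', pr_mp hs, ih]

theorem pr_scale (hA : ∀ i, (A i).IsHomogeneous e) (c : K) (x : Fin (N + 1) → K)
    (i : Fin (1 + 1)) : eval (fun j => c * x j) (A i) = c ^ e * pr A x i := by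
  have h1 := Pool.Agent.W2helper56.OP.aeval_scale (A i) (hA i) c x
  rw [← coe_aeval_eq_eval]
  exact h1

theorem np_pencil (hA : ∀ i, (A i).IsHomogeneous e) (hs : ∀ i, bind₁ F (A i) = bind₁ A (f i))
    {γ : Fin (N + 1) → K} (hγ : pr A γ ≠ 0) (hNP : NP f (pr A γ)) : NP F γ := by
  intro T hT
  have hT0 : (⋃ i ∈ {i : Fin (N + 1) | γ i ≠ 0},
      {v : HeightOneSpectrum (𝓞 K) | v.valuation K (γ i) ≠ 1}).Finite :=
    Set.Finite.biUnion (Set.toFinite _) fun i hi => Pool.Agent.W2helper97.OP.fin_val K (γ i) hi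
  have hT1 : (⋃ i ∈ {i : Fin (1 + 1) | pr A γ i ≠ 0},
      {v : HeightOneSpectrum (𝓞 K) | v.valuation K (pr A γ i) ≠ 1}).Finite :=
    Set.Finite.biUnion (Set.toFinite _) fun i hi =>
      Pool.Agent.W2helper97.OP.fin_val K (pr A γ i) hi
  have hT2 : (⋃ i : Fin (1 + 1), ⋃ m ∈ ((A i).support : Set (Fin (N + 1) →₀ ℕ)),
      {v : HeightOneSpectrum (𝓞 K) | v.valuation K (coeff m (A i)) ≠ 1}).Finite :=
    Set.finite_iUnion fun i => Set.Finite.biUnion (Finset.finite_toSet _) fun m hm =>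
      Pool.Agent.W2helper97.OP.fin_val K _ (mem_support_iff.1 hm)
  obtain ⟨v, hv, hk⟩ := hNP _ ((hT.union hT0).union (hT1.union hT2))
  have hv1 : v ∉ T := fun h => hv (Or.inl (Or.inl h))
  have hv2 : ∀ i, γ i ≠ 0 → v.valuation K (γ i) = 1 := by
    intro i hi
    by_contra h
    exact hv (Or.inl (Or.inr (Set.mem_iUnion₂.2 ⟨i, hi, h⟩)))
  have hv3 : ∀ i, pr A γ i ≠ 0 → v.valuation K (pr A γ i) = 1 := by
    intro i hi
    by_contra h
    exact hv (Or.inr (Or.inl (Set.mem_iUnion₂.2 ⟨i, hi, h⟩)))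
  have hv4 : ∀ i m, v.valuation K (coeff m (A i)) ≤ 1 := by
    intro i m
    by_cases hm : coeff m (A i) = 0
    · rw [hm, map_zero]
      exact zero_le_one
    · by_contra h
      refine hv (Or.inr (Or.inr (Set.mem_iUnion.2 ⟨i, Set.mem_iUnion₂.2
        ⟨m, mem_support_iff.2 hm, ?_⟩⟩)))
      intro h1
      exact h h1.le
  have hv5 : ∀ i, v.valuation K (γ i) ≤ 1 := by
    intro i
    by_cases hi : γ i = 0
    · rw [hi, map_zero]
      exact zero_le_one
    · exact (hv2 i hi).le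
  refine ⟨v, hv1, fun k hk0 hc => hk k hk0 ?_⟩
  obtain ⟨a, b, h1, ⟨i0, h2⟩, h3⟩ := hc
  have hb : v.valuation K b = 1 := by
    have h5 : v.valuation K (b * γ i0) = 1 := val_eq_one_of h2 (h3 i0)
    have h7 : γ i0 ≠ 0 := by
      intro h
      rw [h, mul_zero, map_zero] at h5
      exact zero_ne_one h5
    rw [map_mul, hv2 i0 h7, mul_one] at h5
    exact h5
  have hY : ∀ i, v.valuation K (b * γ i) ≤ 1 := by
    intro i
    rw [map_mul, hb, one_mul]
    exact hv5 i
  have key := fun i => eval_cong' (v.valuation K) (A i) (hv4 i)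
    (fun j => a * ((mp F)^[k] γ) j) (fun j => b * γ j) h1 hY h3
  simp only [pr_scale hA] at key
  obtain ⟨j, hj⟩ := Function.ne_iff.mp hγ
  have h8 : v.valuation K (b ^ e * pr A γ j) = 1 := by
    rw [map_mul, map_pow, hb, one_pow, one_mul]
    exact hv3 j hj
  have h9 : v.valuation K (a ^ e * pr A ((mp F)^[k] γ) j) = 1 := by
    have h10 := (key j).2
    rw [Valuation.map_sub_swap] at h10
    exact val_eq_one_of h8 h10
  rw [← pr_iter hs]
  exact ⟨a ^ e, b ^ e, fun i => (key i).1, ⟨j, h9⟩, fun i => (key i).2⟩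

/-- Positive answers for targets on nonperiodic members of the pencil. -/
theorem dense_pencil (hd : 2 ≤ d) (hF : IsEnd d F) (hA : ∀ i, (A i).IsHomogeneous e)
    {d' : ℕ} (hd' : 2 ≤ d') (hf : IsEnd d' f) (hs : ∀ i, bind₁ F (A i) = bind₁ A (f i))
    {γ : Fin (N + 1) → K} (hγ : γ ≠ 0) (hbase : pr A γ ≠ 0) (hper : ¬ Per f (pr A γ)) :
    AllDense F γ :=
  dense_of_np (by omega) hF hγ fun _ => np_pencil hA hs hbase
    (p_n1 Pool.Agent.W2helper53.OP.p_pre Pool.Agent.W2helper15.OP.p_SIEG K d' f hd' hf _ hbase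
      hper)

open Height in
/-- **Northcott** A morphism of degree at least `2` has finitely many periodic points over `K`. -/
theorem per_finite (hd : 2 ≤ d) (hF : IsEnd d F) : ∃ Z : Set (Fin (N + 1) → K), Z.Finite ∧
    ∀ x : Fin (N + 1) → K, x ≠ 0 → Per F x → ∃ z ∈ Z, PEq x z := by
  obtain ⟨C, hC⟩ := Pool.Agent.R847.HG.exists_lower F hF.1 hF.2
  have hfin : {z : K | mulHeight₁ z ≤ Real.exp |C|}.Finite := Northcott.finite_le (Real.exp |C|)
  refine ⟨Set.pi Set.univ fun _ => {z : K | mulHeight₁ z ≤ Real.exp |C|},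
    Set.Finite.pi fun _ => hfin, fun x hx ⟨n, hn, hp⟩ => ?_⟩
  -- the height of `x` is at most `|C|`
  have hstep : ∀ y : Fin (N + 1) → K, 2 * logHeight y - |C| ≤ logHeight (mp F y) := by
    intro y
    have h1 : C + d * logHeight y ≤ logHeight (mp F y) := hC y
    have h4 := neg_abs_le C
    have h5 : (2 : ℝ) ≤ d := by exact_mod_cast hd
    have h6 : 0 ≤ logHeight y := Real.log_nonneg (one_le_mulHeight _)
    have h7 : 2 * logHeight y ≤ d * logHeight y := mul_le_mul_of_nonneg_right h5 h6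
    linarith
  have hle : logHeight x ≤ |C| := by
    by_contra hcon
    push Not at hcon
    have hgrow : ∀ j : ℕ, logHeight x + j * (logHeight x - |C|) ≤ logHeight ((mp F)^[j] x) := by
      intro j
      induction j with
      | zero => simp
      | succ j ih =>
        rw [Function.iterate_succ_apply']
        have h1 := hstep ((mp F)^[j] x)
        have h2 : 0 ≤ (j : ℝ) * (logHeight x - |C|) :=
          mul_nonneg (Nat.cast_nonneg j) (by linarith)
        push_cast
        nlinarith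
    have h1 := hgrow n
    obtain ⟨c, hc, hcx⟩ := hp
    have h2 : logHeight x = logHeight ((mp F)^[n] x) := by
      conv_lhs => rw [hcx]
      rw [logHeight_eq_log_mulHeight, mulHeight_smul_eq_mulHeight _ hc,
        ← logHeight_eq_log_mulHeight]
    have h3 : 0 < (n : ℝ) * (logHeight x - |C|) :=
      mul_pos (Nat.cast_pos.2 hn) (by linarith)
    linarith
  obtain ⟨i, hi⟩ := Function.ne_iff.1 hx
  refine ⟨(x i)⁻¹ • x, fun j _ => ?_, peq_smul (inv_ne_zero hi) x⟩
  have h1 := Pool.Agent.R847.HG.ratio_le x i j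
  have h2 : ((x i)⁻¹ • x) j = x j / x i := by
    rw [Pi.smul_apply, smul_eq_mul, div_eq_mul_inv, mul_comm]
  show mulHeight₁ (((x i)⁻¹ • x) j) ≤ Real.exp |C|
  rw [h2]
  refine h1.trans ?_
  rw [logHeight_eq_log_mulHeight] at hle
  exact Real.le_exp_of_log_le hle

/-- Positive answers for all targets outside finitely many members of the pencil and its base
locus. -/
theorem dense_pencil' (hd : 2 ≤ d) (hF : IsEnd d F) (hA : ∀ i, (A i).IsHomogeneous e)
    {d' : ℕ} (hd' : 2 ≤ d') (hf : IsEnd d' f) (hs : ∀ i, bind₁ F (A i) = bind₁ A (f i)) :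
    ∃ Z : Set (Fin (1 + 1) → K), Z.Finite ∧ ∀ γ : Fin (N + 1) → K, γ ≠ 0 → pr A γ ≠ 0 →
      (∀ z ∈ Z, ¬ PEq (pr A γ) z) → AllDense F γ := by
  obtain ⟨Z, hZ, hZ'⟩ := per_finite hd' hf
  refine ⟨Z, hZ, fun γ hγ hb hz => dense_pencil hd hF hA hd' hf hs hγ hb fun hper => ?_⟩
  obtain ⟨z, hz1, hz2⟩ := hZ' _ hb hper
  exact hz z hz1 hz2

end

end Pool.Agent.W2helper9.OP
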