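import Pool.Agent.Helper819.DynDefs
import Pool.Agent.K3h30.RS.Defs

/-!
# Project OP: orbits which avoid a point modulo prime ideals (`MP_df4dfc_nt`)

`Φ : ℙ^N → ℙ^N` a morphism over the number field `K`, `S(γ₁, γ₂)` the set of primes modulo which the
orbit of `γ₁` avoids `γ₂`.

Main theorem. (1) If `γ₂` is preperiodic then `S(γ₁, γ₂)` has positive density for every `γ₁` whose
orbit avoids `γ₂`. (2) If `γ₂` is not periodic, this holds if (and only if) `γ₂` is not periodic
modulo one prime of good reduction, if and only if all the sets `S(γ₁, γ₂)` are infinite.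

Proof. Let `W_n` be the set of the points of `ℙ^N(K̄)` whose orbit reaches `γ₂` at time `n` and not
before. Let `q` be a prime of good reduction at which `(*)`: no point `δ ≠ γ₂` whose orbit hits `γ₂`
is congruent to `γ₂`. Then for `n ≥ N(q)^(N+1)` a Frobenius automorphism `σ` at `q` has no fixed
point in `W_n` (pigeonhole). By Chebotarev there is a positive density of primes `p` with this
Frobenius automorphism. Suppose that the orbit of `γ₁` hits `γ₂` modulo `p` for the first time at
time `m ≥ n`. Then `x = Φ^(m-n)(γ₁)` is congruent to a point of `W_n` (Nullstellensatz, for almost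
all `p`), which is fixed by `σ` because `x` is rational.
-/

set_option autoImplicit false

open MvPolynomial IsDedekindDomain NumberField Filter

namespace Pool.Agent.W2helper9.OP

open Pool.Agent.Helper819.Dyn (Tuple IsEnd)
open Pool.Agent.K3h30.RS (PosProportion)

noncomputable section

/-- The map on homogeneous coordinates given by the forms `F`. -/
def mp {k E : Type} [Field k] [Field E] [Algebra k E] {N : ℕ} (F : Tuple k N)
    (x : Fin (N + 1) → E) : Fin (N + 1) → E := fun i => aeval x (F i)

/-- `x` and `y` are homogeneous coordinates of the same point. -/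
def PEq {E : Type} [Field E] {N : ℕ} (x y : Fin (N + 1) → E) : Prop := ∃ c : E, c ≠ 0 ∧ y = c • x

/-- The points with the homogeneous coordinates `x` and `y` have the same reduction with respect to
the valuation `ν`: they have homogeneous coordinates `a x`, `b y` in the valuation ring, not all in
the maximal ideal, which are congruent modulo the maximal ideal. -/
def Cong {E Γ : Type} [Field E] [LinearOrderedCommGroupWithZero Γ] {N : ℕ} (ν : Valuation E Γ)
    (x y : Fin (N + 1) → E) : Prop :=
  ∃ a b : E, (∀ i, ν (a * x i) ≤ 1) ∧ (∃ i, ν (a * x i) = 1) ∧ ∀ i, ν (a * x i - b * y i) < 1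

section nf

variable {K : Type} [Field K] [NumberField K] {N : ℕ}

/-- The prime ideals modulo which no iterate of `γ₁` is congruent to `γ₂`. -/
def S (F : Tuple K N) (γ₁ γ₂ : Fin (N + 1) → K) : Set (HeightOneSpectrum (𝓞 K)) :=
  {v | ∀ m : ℕ, ¬ Cong (v.valuation K) ((mp F)^[m] γ₁) γ₂}

/-- No iterate of `γ₁` is equal to `γ₂`. -/
def Avoids (F : Tuple K N) (γ₁ γ₂ : Fin (N + 1) → K) : Prop := ∀ m : ℕ, ¬ PEq ((mp F)^[m] γ₁) γ₂

/-- `γ` is periodic. -/
def Per (F : Tuple K N) (γ : Fin (N + 1) → K) : Prop := ∃ n : ℕ, 0 < n ∧ PEq ((mp F)^[n] γ) γ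

/-- `γ` is preperiodic. -/
def Preper (F : Tuple K N) (γ : Fin (N + 1) → K) : Prop :=
  ∃ m n : ℕ, m < n ∧ PEq ((mp F)^[m] γ) ((mp F)^[n] γ)

/-- `Φ` has good reduction at `v`: after multiplication of the forms with a constant their
coefficients are in the valuation ring and their reductions have no common zero. -/
def GoodRed (d : ℕ) (F : Tuple K N) (v : HeightOneSpectrum (𝓞 K)) : Prop :=
  ∃ (c : Kˣ) (G : Tuple (v.valuation K).valuationSubring N),
    (∀ i, map (algebraMap (v.valuation K).valuationSubring K) (G i) = C (c : K) * F i) ∧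
    IsEnd d (fun i => map (IsLocalRing.residue (v.valuation K).valuationSubring) (G i))

/-- The set `T` of prime ideals has positive (lower) density. -/
def PosDensity (T : Set (HeightOneSpectrum (𝓞 K))) : Prop :=
  ∃ c : ℝ, 0 < c ∧ ∀ᶠ X : ℕ in atTop,
    c * (Nat.card {v : HeightOneSpectrum (𝓞 K) // Ideal.absNorm v.asIdeal ≤ X} : ℝ) ≤
      (Nat.card {v : HeightOneSpectrum (𝓞 K) // v ∈ T ∧ Ideal.absNorm v.asIdeal ≤ X} : ℝ)

/-! ### auxiliary notions over the algebraic closure -/

/-- a vector over `K` as a vector over the algebraic closure -/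
def emb (x : Fin (N + 1) → K) : Fin (N + 1) → AlgebraicClosure K :=
  fun i => algebraMap K (AlgebraicClosure K) (x i)

/-- The valuation ring `A` of the algebraic closure lies over `v`. -/
def Over (v : HeightOneSpectrum (𝓞 K)) (A : ValuationSubring (AlgebraicClosure K)) : Prop :=
  ∀ x : K, algebraMap K (AlgebraicClosure K) x ∈ A ↔ v.valuation K x ≤ 1

/-- For almost all `v`, all `A` over `v` have the property `P`. -/
def AA (K : Type) [Field K] [NumberField K]
    (P : ValuationSubring (AlgebraicClosure K) → Prop) : Prop :=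
  {v : HeightOneSpectrum (𝓞 K) | ∃ A, Over v A ∧ ¬ P A}.Finite

/-- Good reduction at `A`. -/
def GoodA (F : Tuple K N) (A : ValuationSubring (AlgebraicClosure K)) : Prop :=
  ∃ c : K, c ≠ 0 ∧ (∀ i m, algebraMap K (AlgebraicClosure K) (c * coeff m (F i)) ∈ A) ∧
    ∀ x : Fin (N + 1) → AlgebraicClosure K, (∀ i, x i ∈ A) → (∃ i, A.valuation (x i) = 1) →
      ∃ i, A.valuation (algebraMap K (AlgebraicClosure K) c * mp F x i) = 1

/-- The points of `W_n`, with one coordinate equal to `1`. -/
def W (F : Tuple K N) (n : ℕ) (γ : Fin (N + 1) → K) : Set (Fin (N + 1) → AlgebraicClosure K) :=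
  {δ | (∃ j, δ j = 1) ∧ PEq ((mp F)^[n] δ) (emb γ) ∧ ∀ i < n, ¬ PEq ((mp F)^[i] δ) (emb γ)}

/-- Some automorphism has no fixed point in `W_n`, for some `n`. -/
def Free (F : Tuple K N) (γ : Fin (N + 1) → K) : Prop :=
  ∃ (n : ℕ) (L : IntermediateField K (AlgebraicClosure K)) (_ : FiniteDimensional K L)
    (_ : IsGalois K L) (σ : L ≃ₐ[K] L), (∀ δ ∈ W F n γ, ∀ i, δ i ∈ L) ∧
    ∀ y : Fin (N + 1) → L, (fun i => (y i : AlgebraicClosure K)) ∈ W F n γ →
      (fun i => σ (y i)) ≠ y

/-- The property `(*)`. -/
def Star (F : Tuple K N) (γ : Fin (N + 1) → K) (A : ValuationSubring (AlgebraicClosure K)) : Prop :=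
  ∀ (δ : Fin (N + 1) → AlgebraicClosure K) (k : ℕ), δ ≠ 0 → 0 < k →
    PEq ((mp F)^[k] δ) (emb γ) → Cong A.valuation δ (emb γ) → PEq δ (emb γ)

end nf

/-! ### The pieces. `Basic.lean` (helper9) contains the elementary lemmas on `mp`, `PEq`, `Cong`. -/

/-- **INT** An element of the algebraic closure is integral at almost all places: `z` is algebraic,
so `b z` is integral over `𝓞 K` for some `b ≠ 0` in `𝓞 K`; if `v ∤ b` then `z` is integral over the
valuation ring of `v`, hence over `A`, and `A` is integrally closed. -/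
def P_INT : Prop := ∀ (K : Type) [Field K] [NumberField K] (z : AlgebraicClosure K),
  AA K fun A => z ∈ A

/-- **DIST** Different points are incongruent modulo almost all primes. For suitable `i, j` the
element `z = x_i y_j - x_j y_i` is not zero, so for almost all `v` it is a unit of `A`, and (with one
coordinate `1`) `x`, `y` are in `A`. If `a x ≡ b y` then `a`, `b` are units and `a b z ≡ 0`. -/
def P_DIST : Prop := P_INT → ∀ (K : Type) [Field K] [NumberField K] (N : ℕ)
  (x y : Fin (N + 1) → AlgebraicClosure K), x ≠ 0 → y ≠ 0 → ¬ PEq x y →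
  AA K fun A => ¬ Cong A.valuation x y

/-- **COMP** Comparison of `K` and its algebraic closure. -/
def P_COMP : Prop := ∀ (K : Type) [Field K] [NumberField K] (N : ℕ) (v : HeightOneSpectrum (𝓞 K))
  (A : ValuationSubring (AlgebraicClosure K)), Over v A → ∀ x y : Fin (N + 1) → K,
  (Cong A.valuation (emb x) (emb y) ↔ Cong (v.valuation K) x y)

/-- **CMAP** `Φ` preserves congruence at a place of good reduction: if `a x ≡ b y` then
`c F (a x) = c a ^ d F (x)` and `c F (b y) = c b ^ d F (y)` are congruent. -/
def P_CMAP : Prop := ∀ (K : Type) [Field K] [NumberField K] (N d : ℕ) (F : Tuple K N)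
  (A : ValuationSubring (AlgebraicClosure K)), (∀ i, (F i).IsHomogeneous d) → GoodA F A →
  ∀ x y : Fin (N + 1) → AlgebraicClosure K, Cong A.valuation x y →
    Cong A.valuation (mp F x) (mp F y)

/-- **GAE** Good reduction at almost all places. By the Nullstellensatz
(`MvPolynomial.vanishingIdeal_zeroLocus_eq_radical` over the algebraic closure, with the coefficients
in the algebraic closure) `X_j ^ r = ∑ A_ji F_i`. For almost all `v` all coefficients are in `A`
(INT); then `c = 1` works: if all `F_i (x)` were in the maximal ideal then so were all `x_j`. -/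
def P_GAE : Prop := P_INT → ∀ (K : Type) [Field K] [NumberField K] (N d : ℕ) (F : Tuple K N),
  IsEnd d F → AA K (GoodA F)

/-- **GR** Good reduction in the usual sense implies good reduction at `A`: for `x` in `A ^ (N+1)` with
a unit coordinate the reductions of the forms have no common zero in the algebraic closure of the
residue field `k` of `v`, so `X_j ^ r` is in the ideal generated by them over the algebraic closure of
`k`, hence over `k` (faithfully flat; or: the residue field of `A` is algebraic over `k` and embeds into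
the algebraic closure of `k`). -/
def P_GR : Prop := ∀ (K : Type) [Field K] [NumberField K] (N d : ℕ) (F : Tuple K N)
  (v : HeightOneSpectrum (𝓞 K)), GoodRed d F v → ∀ A, Over v A → GoodA F A

/-- **GFIN** Almost all places are places of good reduction (in the usual sense). Here one needs
`X_j ^ r = ∑ A_ji F_i` (or a multiple of the left hand side with a nonzero constant) with `A_ji` over
`K`: it is a linear system over `K` which has a solution over the algebraic closure. Or: use
`A_ji` over a finite extension `L` and a homomorphism of the local ring to the algebraic closure of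
the residue field. -/
def P_GFIN : Prop := ∀ (K : Type) [Field K] [NumberField K] (N d : ℕ) (F : Tuple K N),
  IsEnd d F → {v | ¬ GoodRed d F v}.Finite

/-- **FIB** Finite fibres. It is enough to treat `n = 1` (induction, all `γ`). Scaling: it is enough
that `{x | mp F x = γ}` is finite (`K̄` is algebraically closed). By the Nullstellensatz there is an
`M` such that every monomial of degree `≥ M` is in the ideal generated by the `F_i`, as
`∑ A_i F_i` with `A_i` homogeneous of smaller degree; so `K̄[X]` is generated as a module over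
`K̄[F_0, …, F_N]` by the monomials of degree `< M` (induction on the degree), and every `X_j` is
integral over `K̄[F_0, …, F_N]` (`Algebra.IsIntegral.of_finite`). So every coordinate of an `x` with
`mp F x = γ` is a root of a fixed monic polynomial. -/
def P_FIB : Prop := ∀ (K : Type) [Field K] [NumberField K] (N d : ℕ) (F : Tuple K N), 1 ≤ d →
  IsEnd d F → ∀ (n : ℕ) (γ : Fin (N + 1) → AlgebraicClosure K), γ ≠ 0 →
    {δ : Fin (N + 1) → AlgebraicClosure K | (∃ j, δ j = 1) ∧ PEq ((mp F)^[n] δ) γ}.Finite

/-- **LIFT** Lifting of points of the fibre. Induction on `n` (for all `γ`; with `y = Φ^n(x)` the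
case `n = 1` gives one of finitely many `δ₁` with `y ≡ δ₁`). Let `n = 1` and `δ_1, …, δ_s` be the
points of the fibre over `γ`. For every choice `c` of pairs `(a_t, b_t)`, `t = 1, …, s`, the product
`H_c = ∏ (X_(a_t) δ_(t,b_t) - X_(b_t) δ_(t,a_t))` vanishes at all common zeros in `K̄^(N+1)` of the
polynomials `F_i γ_j - F_j γ_i`: these are the zero vector (`s ≥ 1`; if `s = 0` take `H = X_j`) and the
multiples of the `δ_t` (a common zero `x ≠ 0` has `F (x) = c γ`, `c ≠ 0`). So a power of `H_c` is a
combination of the `F_i γ_j - F_j γ_i`; for almost all `v` everything is in `A`. If `F (x)` is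
congruent to `γ` then all `H_c (x)` are in the maximal ideal, so `x ≡ δ_t` for some `t`. -/
def P_LIFT : Prop := P_INT → P_GAE → P_FIB → ∀ (K : Type) [Field K] [NumberField K] (N d : ℕ)
  (F : Tuple K N), 1 ≤ d → IsEnd d F → ∀ (n : ℕ) (γ : Fin (N + 1) → AlgebraicClosure K), γ ≠ 0 →
    AA K fun A => ∀ x : Fin (N + 1) → AlgebraicClosure K, x ≠ 0 →
      Cong A.valuation ((mp F)^[n] x) γ →
      ∃ δ : Fin (N + 1) → AlgebraicClosure K, (∃ j, δ j = 1) ∧ PEq ((mp F)^[n] δ) γ ∧
        Cong A.valuation x δ

/-- **EXT** Extension of valuations (`LocalSubring.exists_le_valuationSubring` or the like; the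
valuation ring of `w` is a maximal local subring of `L`). -/
def P_EXT : Prop := ∀ (K : Type) [Field K] [NumberField K]
  (L : IntermediateField K (AlgebraicClosure K)) [NumberField L] (v : HeightOneSpectrum (𝓞 K))
  (w : HeightOneSpectrum (𝓞 L)), w.asIdeal.comap (algebraMap (𝓞 K) (𝓞 L)) = v.asIdeal →
  ∃ A : ValuationSubring (AlgebraicClosure K), Over v A ∧
    ∀ z : L, (z : AlgebraicClosure K) ∈ A ↔ w.valuation L z ≤ 1

/-- **EXT0** There is a valuation ring over `v`. -/
def P_EXT0 : Prop := ∀ (K : Type) [Field K] [NumberField K] (v : HeightOneSpectrum (𝓞 K)),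
  ∃ A : ValuationSubring (AlgebraicClosure K), Over v A

/-- **FLOC** From algebraic integers to all elements of the valuation ring: `x = a / b` with
`a, b ∈ 𝓞 L`, `b ∉ w`. -/
def P_FLOC : Prop := ∀ (K : Type) [Field K] [NumberField K]
  (L : IntermediateField K (AlgebraicClosure K)) [NumberField L] (w : HeightOneSpectrum (𝓞 L))
  (A : ValuationSubring (AlgebraicClosure K)) (σ : L ≃ₐ[K] L) (q : ℕ),
  (∀ z : L, (z : AlgebraicClosure K) ∈ A ↔ w.valuation L z ≤ 1) →
  (∀ x : 𝓞 L, w.valuation L (σ (x : L) - (x : L) ^ q) < 1) →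
  ∀ x : L, (x : AlgebraicClosure K) ∈ A →
    A.valuation ((σ x : AlgebraicClosure K) - (x : AlgebraicClosure K) ^ q) < 1

/-- **FROB** Existence of a Frobenius automorphism at `A` (`IsArithFrobAt`, for the prime ideal
`A.nonunits ∩ 𝓞 L`, then FLOC). -/
def P_FROB : Prop := P_FLOC → ∀ (K : Type) [Field K] [NumberField K] (v : HeightOneSpectrum (𝓞 K))
  (A : ValuationSubring (AlgebraicClosure K)), Over v A →
  ∀ (L : IntermediateField K (AlgebraicClosure K)) [FiniteDimensional K L] [IsGalois K L],
    ∃ σ : L ≃ₐ[K] L, ∀ x : L, (x : AlgebraicClosure K) ∈ A →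
      A.valuation ((σ x : AlgebraicClosure K) -
        (x : AlgebraicClosure K) ^ (Ideal.absNorm v.asIdeal)) < 1

/-- **RES** The residue field of `v` has `absNorm v` elements. -/
def P_RES : Prop := ∀ (K : Type) [Field K] [NumberField K] (v : HeightOneSpectrum (𝓞 K)) (x : K),
  v.valuation K x ≤ 1 → v.valuation K (x ^ (Ideal.absNorm v.asIdeal) - x) < 1

/-- **FQ** Let `n = q ^ (N+1)`, `q` the norm of `v`. The points of `W_n` are finitely many (FIB), `L` a
finite Galois extension which contains their coordinates, `σ` the Frobenius automorphism (FROB).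
Suppose that `σ y = y` for a `y ∈ W_n`. Divide `y` by a coordinate of maximal absolute value; then
`y` is in `A ^ (N+1)`, `σ y = y` and one coordinate is `1`. With the constant `c` of `GoodA` let
`z_0 = y`, `z_(i+1) = c F (z_i)`. By induction the coordinates of `z_i` are in `A`, one is a unit, and
their residues satisfy `t ^ q = t` (the coefficients of `c F` are in `K`, RES). So there are at most
`q ^ (N+1)` residue vectors, and `z_i ≡ z_j` for some `i < j ≤ n`. Then
`Φ^(n-(j-i)) (y) ≡ Φ^n (y) = γ` and by `(*)` `Φ^(n-(j-i)) (y) = γ`, a contradiction. -/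
def P_FQ : Prop := P_FIB → P_FLOC → P_FROB → P_RES → P_CMAP → ∀ (K : Type) [Field K]
  [NumberField K] (N d : ℕ) (F : Tuple K N) (γ : Fin (N + 1) → K) (v : HeightOneSpectrum (𝓞 K))
  (A : ValuationSubring (AlgebraicClosure K)), 1 ≤ d → IsEnd d F → γ ≠ 0 → Over v A →
  GoodA F A → Star F γ A → Free F γ

/-- **STA** If `γ` is not periodic modulo `v` then `(*)` holds: `Φ^k (δ) = γ` and `δ ≡ γ` give
`Φ^k (γ) ≡ γ`. -/
def P_STA : Prop := P_COMP → P_CMAP → ∀ (K : Type) [Field K] [NumberField K] (N d : ℕ)
  (F : Tuple K N) (γ : Fin (N + 1) → K) (v : HeightOneSpectrum (𝓞 K))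
  (A : ValuationSubring (AlgebraicClosure K)), IsEnd d F → γ ≠ 0 → Over v A → GoodA F A →
  (∀ k : ℕ, 0 < k → ¬ Cong (v.valuation K) ((mp F)^[k] γ) γ) → Star F γ A

/-- **STB** If `γ` is preperiodic then `(*)` holds for almost all `v`. The orbit of `γ` consists of
finitely many points; for almost all `v` different points of the orbit are incongruent (DIST). Let
`Φ^k (δ) = γ`, `δ ≡ γ`. Then `Φ^k (γ) ≡ γ`, so `Φ^k (γ) = γ`. Let `r ≥ 1` be the smallest period of `γ`,
`r ∣ k`, `g = Φ^r`, `t` minimal with `g^t (δ) = γ`. If `t = 0` we are done, otherwise `δ' = g^(t-1) (δ)` is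
not `γ`, `g (δ') = γ`, `δ' ≡ g^(t-1) (γ) = γ`. But the fibre of `g` over `γ` is finite (FIB) and the
points `≠ γ` in it are incongruent to `γ` for almost all `v` (DIST). -/
def P_STB : Prop := P_INT → P_DIST → P_GAE → P_FIB → P_CMAP → ∀ (K : Type) [Field K]
  [NumberField K] (N d : ℕ) (F : Tuple K N) (γ : Fin (N + 1) → K), 1 ≤ d → IsEnd d F → γ ≠ 0 →
  Preper F γ → AA K (Star F γ)

/-- **CORE** From `Free` to positive density. Let `n, L, σ` be as in `Free` and let `v` be outside a
finite set with a prime `P` of `L` above it at which `σ` is the Frobenius automorphism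
(`Pool.Agent.K3h73.RS.t_CHEB`; `NumberField L` by `NumberField.of_module_finite`). Let `m` be minimal
with `Φ^m (γ₁) ≡ γ` modulo `v`. Then `m ≥ n` (outside a finite set of `v`). Let `A` be the valuation
ring of EXT over `P` and `x = Φ^(m-n) (γ₁)`. By LIFT there is a `δ ≡ x` with a coordinate `1` and
`Φ^n (δ) = γ`. If `Φ^i (δ) = γ`, `i < n`, then `Φ^(m-n+i) (γ₁) ≡ γ`, which contradicts the minimality
of `m`. So `δ ∈ W_n`. For almost all `v` the finitely many such `δ` are in `A ^ (N+1)`. Dividing `x`
by a coordinate we have `x_i ≡ δ_i` and `x_i ∈ K`, so `σ δ_i ≡ δ_i ^ q ≡ x_i ^ q ≡ x_i ≡ δ_i` (FLOC,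
RES). So `σ δ ≡ δ`, both are in `W_n`, hence equal for almost all `v` (DIST): contradiction. -/
def P_CORE : Prop := P_INT → P_DIST → P_COMP → P_CMAP → P_GAE → P_FIB → P_LIFT → P_EXT → P_FLOC →
  P_RES → ∀ (K : Type) [Field K] [NumberField K] (N d : ℕ) (F : Tuple K N)
  (γ₁ γ : Fin (N + 1) → K), 1 ≤ d → IsEnd d F → γ₁ ≠ 0 → γ ≠ 0 → Avoids F γ₁ γ → Free F γ →
  PosProportion (fun v : HeightOneSpectrum (𝓞 K) => v ∈ S F γ₁ γ)

/-- **DENS** At most `[K : ℚ]` prime ideals lie over a prime number, so there are at most
`[K : ℚ] π(X)` prime ideals of norm at most `X`. -/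
def P_DENS : Prop := ∀ (K : Type) [Field K] [NumberField K] (T : Set (HeightOneSpectrum (𝓞 K))),
  (PosProportion (fun v : HeightOneSpectrum (𝓞 K) => v ∈ T) → PosDensity T) ∧
  (PosDensity T → T.Infinite)

end

end Pool.Agent.W2helper9.OP
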