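import Pool.Agent.W2helper9.OP.Main

/-!
# Project OP, part 2: the local-global principle for periodic points of triangular morphisms

`Φ = (F_0 : … : F_N)` is triangular if `F_i` involves only the variables `x_0, …, x_max(i,1)`. If `γ` is
not periodic then it is not periodic modulo infinitely many primes.

`N = 1`: there is a fixed point `ζ` with three different points in `Φ^(-2)(ζ)` (PRE). If `γ` is
wandering then by Siegel's theorem (here: the unit equation) its orbit hits `ζ` modulo infinitely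
many primes (SIEG). If `γ` is periodic modulo such a prime then `γ ≡ ζ`: finitely many primes.

`N → N + 1`: let `γ'` be the image of `γ` under the projection which forgets the last coordinate. If
`γ'` is not periodic, use induction (CASE1). If `γ'` has period `r` then `Φ^r` maps the line over `γ'`
to itself, use `N = 1` (CASE2).
-/

set_option autoImplicit false

open MvPolynomial IsDedekindDomain NumberField Filter

namespace Pool.Agent.W2helper9.OP

open Pool.Agent.Helper819.Dyn (Tuple IsEnd)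

section

variable {K : Type} [Field K] [NumberField K] {N : ℕ}

/-- `γ` is not periodic modulo infinitely many prime ideals. -/
def NP (F : Tuple K N) (γ : Fin (N + 1) → K) : Prop :=
  ∀ T : Set (HeightOneSpectrum (𝓞 K)), T.Finite →
    ∃ v ∉ T, ∀ k : ℕ, 0 < k → ¬ Cong (v.valuation K) ((mp F)^[k] γ) γ

/-- Triangular tuples: `F_i` involves only `x_0, …, x_max(i,1)`. -/
def Tri (F : Tuple K N) : Prop := ∀ i : Fin (N + 1), ∀ j ∈ (F i).vars, (j : ℕ) ≤ max (i : ℕ) 1

/-- `F'` is the map induced by `F` on the coordinates without the last one. -/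
def Below (F : Tuple K (N + 1)) (F' : Tuple K N) : Prop :=
  (∀ x : Fin (N + 2) → K, (fun i : Fin (N + 1) => mp F x i.castSucc) =
    mp F' (fun i => x i.castSucc)) ∧
  (∀ x : Fin (N + 2) → AlgebraicClosure K, (fun i : Fin (N + 1) => mp F x i.castSucc) =
    mp F' (fun i => x i.castSucc))

end

/-- **PRE** A fixed point `ζ` with three points in `Φ^(-2)(ζ)`. It is enough to find a fixed point
`ζ` and a `β ≠ ζ` with `Φ(β) = ζ`: with `Φ(β₂) = β` (`Φ` is surjective: the binary form
`β_1 F_0 - β_0 F_1` has a zero) the points `ζ, β, β₂` are different. There is a fixed point `ζ₁` (zero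
of the form `x_1 F_0 - x_0 F_1`). Suppose that `ζ₁` is its only preimage. Let `u` be a linear form
with the zero `ζ₁` and `w` another linear form; then `u(F) = c u^d` and `w(F) = P(u, w)`, the
coefficient of `w^d` in `P` is not `0`. With `u = 1` the fixed points are the solutions of
`P(1, w) = c w`; let `w₀` be one. Suppose again that it is its only preimage:
`P(1, w) - c w₀ = p (w - w₀)^d`. Then take `w₁` with `p (w₁ - w₀)^(d-1) = c`: this is a fixed point, and
`w₀ + ω (w₁ - w₀)` with `ω^d = 1`, `ω ≠ 1` is another preimage of it. (A polynomial of degree `d` over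
an algebraically closed field with the only zero `w₀` is `p (w - w₀)^d`.) -/
def P_PRE : Prop := ∀ (K : Type) [Field K] [NumberField K] (d : ℕ) (F : Tuple K 1), 2 ≤ d →
  IsEnd d F → ∃ ζ : Fin 2 → AlgebraicClosure K, ζ ≠ 0 ∧ PEq (mp F ζ) ζ ∧
    ∃ b : Fin 3 → Fin 2 → AlgebraicClosure K, (∀ i, b i ≠ 0) ∧ (∀ i j, i ≠ j → ¬ PEq (b i) (b j)) ∧
      ∀ i, PEq ((mp F)^[2] (b i)) ζ

/-- **SIEG** Siegel's theorem for orbits. Let `L ⊆ K̄` be the number field generated by the
coordinates of the `b i`. Suppose that for all `v ∉ T` and all `A` over `v` the orbit of `γ` does not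
meet `ζ` modulo `A`. For almost all `v` the map has good reduction at all `A` over `v` (GAE), so no
`x = Φ^m(γ)` is congruent to a `b i` modulo `A` (CMAP, twice). With `[x, y] = x_0 y_1 - x_1 y_0` let
`u = [x, b_0] [b_2, b_1] / ([x, b_1] [b_2, b_0])`, then `1 - u = [x, b_2] [b_0, b_1] / …` up to the sign.
For almost all `v` the `[b_i, b_j]` are units and the `b_i` are unimodular at all `A` over `v`; then `u` and
`1 - u` are units at `A` (`[x, b_i]` is a unit for unimodular `x` not congruent to `b_i`). So `u`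
and `1 - u` are units at all primes `w` of `L` outside a finite set (EXT: every `w` is induced by an
`A`), and there are finitely many such `u` by `Pool.Agent.K4H56.IF.su` (`K4H56/IF/UE.lean`, see
`val_one` there). `u` determines the point `x`, so the orbit of `γ` is finite. -/
def P_SIEG : Prop := P_CMAP → P_GAE → P_INT → P_EXT → ∀ (K : Type) [Field K] [NumberField K] (d : ℕ)
  (F : Tuple K 1), IsEnd d F → ∀ (ζ : Fin 2 → AlgebraicClosure K)
  (b : Fin 3 → Fin 2 → AlgebraicClosure K), ζ ≠ 0 → (∀ i, b i ≠ 0) →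
  (∀ i j, i ≠ j → ¬ PEq (b i) (b j)) → (∀ i, PEq ((mp F)^[2] (b i)) ζ) →
  ∀ γ : Fin 2 → K, γ ≠ 0 → ¬ Preper F γ →
  ∀ T : Set (HeightOneSpectrum (𝓞 K)), T.Finite → ∃ v ∉ T, ∃ A, Over v A ∧ ∃ n : ℕ,
    Cong A.valuation ((mp F)^[n] (emb γ)) ζ

/-- **N1** (helper9) The case `N = 1`. -/
def P_N1 : Prop := ∀ (K : Type) [Field K] [NumberField K] (d : ℕ) (F : Tuple K 1), 2 ≤ d →
  IsEnd d F → ∀ γ : Fin 2 → K, γ ≠ 0 → ¬ Per F γ → NP F γ

/-- **ITER** The iterates are given by forms of degree `d ^ r`. -/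
def P_ITER : Prop := ∀ (K : Type) [Field K] [NumberField K] (N d : ℕ) (F : Tuple K N),
  (∀ i, (F i).IsHomogeneous d) → ∀ r : ℕ, ∃ G : Tuple K N, (∀ i, (G i).IsHomogeneous (d ^ r)) ∧
    (∀ x : Fin (N + 1) → K, mp G x = (mp F)^[r] x) ∧
    ∀ x : Fin (N + 1) → AlgebraicClosure K, mp G x = (mp F)^[r] x

/-- **BEL** The induced map: `F'_i = F_i (x_0, …, x_N, 0)` for `i ≤ N`. It is a morphism: if
`x' ≠ 0` were a common zero of the `F'_i` then `F_(N+1) (x', t) ≠ 0` for all `t`, but this polynomial
in `t` has the leading term `c t^d`, `c = F_(N+1) (0, …, 0, 1) ≠ 0`, and `d ≥ 1`. -/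
def P_BEL : Prop := ∀ (K : Type) [Field K] [NumberField K] (N d : ℕ) (F : Tuple K (N + 1)),
  1 ≤ N → 1 ≤ d → IsEnd d F → Tri F → ∃ F' : Tuple K N, IsEnd d F' ∧ Tri F' ∧ Below F F'

/-- **CASE0** The centre of the projection is a fixed point (`F'_i (0) = 0`). -/
def P_CASE0 : Prop := ∀ (K : Type) [Field K] [NumberField K] (N d : ℕ) (F : Tuple K (N + 1))
  (F' : Tuple K N), 1 ≤ d → IsEnd d F → IsEnd d F' → Below F F' → ∀ γ : Fin (N + 2) → K, γ ≠ 0 →
  (fun i : Fin (N + 1) => γ i.castSucc) = 0 → Per F γ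

/-- **CASE1** For almost all `v` the largest absolute value of the coordinates of `γ` and of those of
`γ'` is `1`; for these `v` the congruence of `Φ^k(γ)` and `γ` implies the one of `Φ'^k(γ')` and `γ'`. -/
def P_CASE1 : Prop := ∀ (K : Type) [Field K] [NumberField K] (N : ℕ) (F : Tuple K (N + 1))
  (F' : Tuple K N), Below F F' → ∀ γ : Fin (N + 2) → K,
  (fun i : Fin (N + 1) => γ i.castSucc) ≠ 0 → NP F' (fun i => γ i.castSucc) → NP F γ

/-- **CASE2** Let `γ = (γ', t₀)` and `Φ'^r(γ') = c γ'`, `r ≥ 1`. For the map `ι (s, t) = (s γ', t)` we have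
`Φ^r (ι (s, t)) = ι (c s^D, H (s, t))`, `D = d ^ r`, with a form `H` of degree `D` (ITER: substitute
`ι` into the last form of `Φ^r`). `G = (c X_0^D, H)` is a morphism (a zero has `s = 0`, and
`Φ^r (0, …, 0, t) ≠ 0` has the last coordinate `H (0, t)`). `Φ^(r j) (γ) = ι (G^j (1, t₀))`, so `(1, t₀)` is
not periodic for `G`, and by `N = 1` it is not periodic modulo infinitely many `v`. Suppose that
`Φ^k(γ) ≡ γ` modulo such a `v` (outside a finite set). By good reduction (GFIN, GR, EXT0, CMAP or GAE)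
`Φ^(k r) (γ) ≡ γ`, that is `ι (G^k (1, t₀)) ≡ ι (1, t₀)`, and for almost all `v` (a coordinate of `γ'` is
a unit, all are integral) `G^k (1, t₀) ≡ (1, t₀)`, a contradiction. -/
def P_CASE2 : Prop := P_N1 → P_ITER → P_CMAP → P_COMP → P_EXT0 → P_GFIN → P_GR →
  ∀ (K : Type) [Field K] [NumberField K] (N d : ℕ) (F : Tuple K (N + 1)) (F' : Tuple K N),
  2 ≤ d → IsEnd d F → Below F F' → ∀ γ : Fin (N + 2) → K,
  (fun i : Fin (N + 1) => γ i.castSucc) ≠ 0 → Per F' (fun i => γ i.castSucc) → ¬ Per F γ → NP F γ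

end Pool.Agent.W2helper9.OP
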