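import Pool.Agent.W2helper9.OP.N1
import Pool.Agent.W2helper53.OP.Pre
import Pool.Agent.W2helper92.OP.Bel
import Pool.Agent.W2helper97.OP.Case
import Pool.Agent.W2helper12.OP.Case2
import Pool.Agent.W2helper15.OP.Sieg

/-!
# Project OP, part 2: triangular morphisms, without hypotheses
-/

set_option autoImplicit false

namespace Pool.Agent.W2helper9.OP

open Pool.Agent.Helper819.Dyn (Tuple IsEnd)
open IsDedekindDomain NumberField

variable {K : Type} [Field K] [NumberField K] {N d : ℕ} {F : Tuple K N}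

/-- The local-global principle for periodic points of triangular morphisms. -/
theorem np_tri' (hN : 1 ≤ N) (hd : 2 ≤ d) (hF : IsEnd d F) (hT : Tri F) {γ : Fin (N + 1) → K}
    (hγ : γ ≠ 0) (hper : ¬ Per F γ) : NP F γ :=
  np_tri Pool.Agent.W2helper53.OP.p_pre Pool.Agent.W2helper15.OP.p_SIEG
    Pool.Agent.W2helper53.OP.p_iter Pool.Agent.W2helper92.OP.p_bel
    Pool.Agent.W2helper97.OP.p_CASE0 Pool.Agent.W2helper97.OP.p_CASE1
    Pool.Agent.W2helper12.OP.p_case2 K d hd N hN F hF hT γ hγ hper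

/-- Positive answers for triangular morphisms. -/
theorem dense_tri (hd : 2 ≤ d) (hF : IsEnd d F) (hT : Tri F) {γ : Fin (N + 1) → K}
    (hγ : γ ≠ 0) : AllDense F γ := by
  rcases Nat.eq_zero_or_pos N with rfl | hN
  · intro γ₁ hγ₁ hav
    exfalso
    have hsub : ∀ i : Fin (0 + 1), i = 0 := fun i => Fin.ext (by have := i.isLt; simp only [Fin.val_zero]; omega)
    apply hav 0
    show PEq γ₁ γ
    have h1 : γ₁ 0 ≠ 0 := by
      intro h0
      apply hγ₁
      funext i
      rw [hsub i, h0]
      rfl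
    have h2 : γ 0 ≠ 0 := by
      intro h0
      apply hγ
      funext i
      rw [hsub i, h0]
      rfl
    refine ⟨γ 0 / γ₁ 0, div_ne_zero h2 h1, ?_⟩
    funext i
    rw [hsub i, Pi.smul_apply, smul_eq_mul, div_mul_cancel₀ _ h1]
  · exact dense_of_np (by omega) hF hγ (np_tri' hN hd hF hT hγ)

end Pool.Agent.W2helper9.OP
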